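import Pool.Agent.H32.TZ.Def

/-!
# [H32 TZ Itf] THEOREM Z (MP_e49dc9_ag), the engine: the statements which connect the chapters (text: think 1075)

* `SurfMov X` (SURF): helper32.
* `Fld1 X` (G1 and TR, level 1): helper32.
* `Chain k K` (CHAIN): helper41.
* `EndF hX hg` (END (i), (ii)): helper41.
* `Engine hX hg`: the statement which the numerical half uses; `Engine` follows from the four statements above.
-/

set_option autoImplicit false

open scoped TensorProduct

namespace Pool.Agent.H32.TZ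

open Pool.Agent.H54.RV Pool.Agent.H83.TU Pool.Agent.H24.TU Pool.Agent.H24.TV Pool.Agent.H39.TQ

variable {k K : Type} [Field k] [Field K] [Algebra k K]

section alg

variable (k K)

/-- CHAIN: two different fields give a surface -/
def Chain : Prop :=
  ∀ (L : Submodule k K) (F F' : IntermediateField k K) (u u' : ℕ), FiniteDimensional k L →
    Algebra.trdeg F K = 1 → Algebra.trdeg F' K = 1 → Clo F → Clo F' → F ≠ F' → GrwL F L u → GrwL F' L u' →
      Srf L (u + u')

end alg

section geo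

variable (X : Mod k K)

/-- SURF: a surface gives sections which vanish to high order along infinitely many prime divisors -/
def SurfMov : Prop :=
  ∀ (D : Cart X) (κ u : ℕ), (κ + 3).choose 3 ≤ u → Srf (secL D 1) κ → Mov D u

/-- the volume of `E` (with an arbitrarily small ample class added) is smaller than `h0 E / t` -/
def SmV {X : Mod k K} (t : ℝ) (E : Cart X) : Prop :=
  ∃ (q : ℕ) (A₀ : Cart X), 1 ≤ q ∧ Ample A₀ ∧ t * vol (E ^ q * A₀) < q ^ 3 * h0 E 1

/-- G1 and TR: many sections give a surface or a field -/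
def Fld1 : Prop :=
  ∀ (E : Cart X) (e : ℕ), 1 ≤ e → (2 * e + 2).choose 3 < h0 E 1 → SmV ((1 + 3 / (e : ℝ)) ^ 3) E →
    Srf (secL E 1) (2 * e) ∨ ∃ F : IntermediateField k K, Algebra.trdeg F K = 1 ∧ Clo F ∧
      GrwL F (secL E 1) ((e + 2).choose 3)

end geo

variable {X : Mod k K}

/-- END (i), (ii) -/
def EndF (hX : IsVar X) (hg : ∃ g, Gen X g) : Prop :=
  ∀ (D : Cart X) (F : IntermediateField k K) (u κ₀ : ℕ), 0 < h0 D 1 → Algebra.trdeg F K = 1 → Clo F →
    GrwL F (secL D 1) u → (κ₀ + u + 3).choose 3 < h0 D 1 →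
      Srf (secL D 1) (κ₀ + u) ∨ ∀ A : Cart X, Ample A → ∀ a b : ℕ, 1 ≤ a → 1 ≤ b →
        (κ₀ : ℝ) ^ 2 / 2 * a ^ 2 * b * RF hX hg F A ≤ vol (D ^ a * A ^ b)

/-- the engine: `D n` is a sequence of divisors with `h0 → ∞`, the classes `E n = D n * D (n + 1)` have small volume -/
def Engine (hX : IsVar X) (hg : ∃ g, Gen X g) : Prop :=
  ∀ (D : ℕ → Cart X) (th : ℝ), 0 < th → Filter.Tendsto (fun n => h0 (D n) 1) Filter.atTop Filter.atTop →
    (∀ᶠ n in Filter.atTop, SmV (1 + th) (D n * D (n + 1))) →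
      (∃ u : ℕ, ∃ᶠ n in Filter.atTop, Mov (D n) u ∨ Mov (D n * D (n + 1)) u) ∨
      ∃ F : IntermediateField k K, Algebra.trdeg F K = 1 ∧ Clo F ∧ ∀ M : ℝ, ∀ᶠ n in Filter.atTop,
        ∀ A : Cart X, Ample A → ∀ a b : ℕ, 1 ≤ a → 1 ≤ b →
          M * a ^ 2 * b * RF hX hg F A ≤ vol (D n ^ a * A ^ b)

end Pool.Agent.H32.TZ
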