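import Pool.Agent.H32.TZ.Itf2
import Pool.Agent.H41.ZC.Clo
import Pool.Agent.H24.ZL.Tr
import Pool.Agent.H24.ZL.G1

/-!
# [H32 TZ FldP] THEOREM Z (MP_e49dc9_ag), G1 and TR (after H24/ZL/Tr), with the transitive prime of `F`
-/

set_option autoImplicit false

open scoped TensorProduct

namespace Pool.Agent.H32.TZ

open Pool.Agent.H54.RV Pool.Agent.H83.TU Pool.Agent.H24.TU Pool.Agent.H24.TV Pool.Agent.H39.TQ Pool.Agent.H39.TU
  Pool.Agent.H41.ZC Pool.Agent.H24.ZL Pool.Agent.H20.TU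

section alg

variable {k K : Type} [Field k] [Field K] [Algebra k K]

theorem trP [CharZero k] [IsAlgClosed k] [Algebra.EssFiniteType k K] (htr : Algebra.trdeg k K = 3)
    (L : Submodule k K) (hL : FiniteDimensional k L) {e : ℕ} (he : 1 ≤ e)
    (hh : (2 * e + 2).choose 3 < Module.finrank k L) {V : Ideal (K ⊗[k] K)} (hVp : V.IsPrime)
    (hVI : V ≤ dI k K) (hne : V ≠ dI k K) (hV : ∀ G ∈ L.baseChange K, OrdGE (dI k K) e G → G ∈ V) :
    TZ.Srf L (2 * e) ∨ ∃ F : IntermediateField k K, Algebra.trdeg F K = 1 ∧ IsPF F ∧ Clo F ∧ GrwL F L ((e + 2).choose 3) := by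
  obtain ⟨C⟩ := exists_coord (k := k) (K := K) htr
  have hdom := Pool.Agent.H41.TQ.dom_tensor C
  have hbot : (⊥ : Ideal (K ⊗[k] K)).IsPrime := Ideal.isPrime_bot
  have hlt : V < dI k K := lt_of_le_of_ne hVI hne
  -- a prime which contains all elements of large order is not zero
  have hnz : ∀ (W : Ideal (K ⊗[k] K)) (m : ℕ), 1 ≤ m → m ≤ 2 * e →
      (∀ G ∈ L.baseChange K, OrdGE (dI k K) m G → G ∈ W) → W ≠ ⊥ := by
    rintro W m hm hm2 hW rfl
    have h1 := dim_le C L hm fun G hG hord => (Ideal.mem_bot.1 (hW G hG hord))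
    have h2 : (m + 2).choose 3 ≤ (2 * e + 2).choose 3 := Nat.choose_le_choose 3 (by omega)
    omega
  have hV0 : V ≠ ⊥ := hnz V e he (by omega) hV
  -- the transcendence degree of V
  have hfin : ∀ P : Ideal (K ⊗[k] K), P.IsPrime → ∃ n : ℕ, n ≤ 3 ∧ Algebra.trdeg K ((K ⊗[k] K) ⧸ P) = n := by
    intro P hP
    have h := Pool.Agent.H41.TQ.trdeg_quot_le htr P hP
    have h3 : (3 : Cardinal) = ((3 : ℕ) : Cardinal) := by norm_num
    rw [h3] at h
    obtain ⟨n, hn⟩ := Cardinal.lt_aleph0.1 (h.trans_lt (Cardinal.natCast_lt_aleph0))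
    refine ⟨n, ?_, hn⟩
    rw [hn] at h
    exact_mod_cast h
  have hstep : ∀ P Q : Ideal (K ⊗[k] K), P.IsPrime → Q.IsPrime → P < Q →
      Algebra.trdeg K ((K ⊗[k] K) ⧸ Q) < Algebra.trdeg K ((K ⊗[k] K) ⧸ P) := fun P Q hP hQ h =>
    trdeg_quot_lt hP hQ h (trdeg_quot_fin hP)
  obtain ⟨a, ha3, ha⟩ := hfin ⊥ hbot
  obtain ⟨b, hb3, hb⟩ := hfin V hVp
  have h1 := hstep V (dI k K) hVp inferInstance hlt
  have h2 := hstep ⊥ V hbot hVp (bot_lt_iff_ne_bot.2 hV0)
  rw [trdeg_dI, hb] at h1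
  rw [ha, hb] at h2
  have h1' : 0 < b := by exact_mod_cast h1
  have h2' : b < a := by exact_mod_cast h2
  rcases (show b = 1 ∨ b = 2 by omega) with hb1 | hb2
  swap
  · left
    refine ⟨V, hVp, ?_, fun G hG hord => hV G hG (OrdGE_mono (by omega) hord)⟩
    rw [hb, hb2]
    norm_num
  have htrV : Algebra.trdeg K ((K ⊗[k] K) ⧸ V) = 1 := by
    rw [hb, hb1]
    norm_num
  -- the two maps
  let x : K →ₐ[k] V.ResidueField :=
    (IsScalarTower.toAlgHom k (K ⊗[k] K) V.ResidueField).comp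
      (Algebra.TensorProduct.includeLeft : K →ₐ[k] K ⊗[k] K)
  let y : K →ₐ[k] V.ResidueField :=
    (IsScalarTower.toAlgHom k (K ⊗[k] K) V.ResidueField).comp
      (Algebra.TensorProduct.includeRight : K →ₐ[k] K ⊗[k] K)
  have hxy : ∀ q : K ⊗[k] K, pt x y q = algebraMap (K ⊗[k] K) V.ResidueField q := by
    intro q
    induction q using TensorProduct.induction_on with
    | zero => simp
    | add a b ha hb => rw [map_add, map_add, ha, hb]
    | tmul a b =>
      rw [pt_tmul]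
      show algebraMap (K ⊗[k] K) V.ResidueField (a ⊗ₜ[k] 1) *
        algebraMap (K ⊗[k] K) V.ResidueField (1 ⊗ₜ[k] b) = _
      rw [← map_mul, Algebra.TensorProduct.tmul_mul_tmul, mul_one, one_mul]
  have hPxy : ptI x y = V := by
    ext q
    rw [mem_ptI, hxy, Ideal.algebraMap_residueField_eq_zero]
  have hPI' : ptI x y ≤ dI k K := by rw [hPxy]; exact hVI
  rcases tr_or L hL he x y hPI' (by rw [hPxy]; exact hV) with hle | ⟨W, hW, hWV, hWL⟩
  · right
    have htrF : Algebra.trdeg (eqF x y) K = 1 := trdeg_eqF x y hle hPI' (by rw [hPxy]; exact htrV)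
    have h3 := finrank_span_L L x y hle hPI'
    have h4 := dim_im C L V he hV
    rw [hPxy] at h3
    exact ⟨eqF x y, htrF, ⟨V.ResidueField, inferInstance, inferInstance, x, y, rfl, hPI', hle⟩,
      fun z hz => eqF_closed x y hPI' z hz, h3.trans h4⟩
  · left
    rw [hPxy] at hWV
    have hW0 : W ≠ ⊥ := hnz W (2 * e - 1) (by omega) (by omega) hWL
    obtain ⟨h5, -⟩ := Pool.Agent.H41.TQ.trdeg_two htr C hW hVp hWV hlt hW0
    exact ⟨W, hW, h5, fun G hG hord => hWL G hG (OrdGE_mono (by omega) hord)⟩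

end alg

variable {k K : Type} [Field k] [Field K] [Algebra k K] {X : Mod k K}

/-- **(G1) and (TR)** -/
theorem fldP [IsAlgClosed k] [CharZero k] (h : Hyp X) : FldP X := by
  intro E e he hh hv
  have hess : Algebra.EssFiniteType k K := by
    have h1 := K_fg h.var h.gen
    have h2 := IntermediateField.essFiniteType_iff.2 h1
    exact Algebra.EssFiniteType.of_surjective
      (IntermediateField.topEquiv (F := k) (E := K)).toAlgHom
      (IntermediateField.topEquiv (F := k) (E := K)).surjective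
  have hGF := gf h.var h.gen h.tr
  obtain ⟨V, h1, h2, h3, h4⟩ := g1 h E he (Nat.zero_lt_of_lt hh) hv
  exact trP h.tr (secL E 1) (hGF.1 E 1) he hh h1 h2 h3 h4

end Pool.Agent.H32.TZ
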