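import Pool.Agent.H24.TU.OrdB

/-!
# [H32 TZ CNT] THEOREM Z (MP_e49dc9_ag), SURF: the counting lemma

`L` a finite dimensional subspace of `K`, `Q` an ideal of `R = K ⊗[k] K`, `Θ` a derivation of the coefficients (left factor).
`exists_single`: if the image of `L ⊗ K` in `R ⧸ Q` has dimension at most `u` over `K` and `s * u < dim L` then there is a nonzero `G` in
`L.baseChange K` with `(dX K Θ)^[i] G ∈ Q` for all `i < s`.

PROOF.  Write `D := dX K Θ`; `D (a • G) = a • D G + Θ a • G` for `a ∈ K` (`a • G = (a ⊗ₜ 1) * G`; compare the private `ordb_dX_smul` of H24/TU/OrdB).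
(1) `∀ s a G, (∀ i < s, D^[i] G ∈ Q) → D^[s] (a • G) - a • D^[s] G ∈ Q`.  Induction on `s`, for all `a`, `G`: `D^[s+1] (a • G) = D^[s] (a • D G) + D^[s] (Θ a • G)`
(`D^[s]` is additive: `iterate_map_add`), `D^[s] (a • D G) ≡ a • D^[s] (D G)` and `D^[s] (Θ a • G) ≡ Θ a • D^[s] G ∈ Q` modulo `Q`.
(2) `V s := {G ∈ L.baseChange K | ∀ i < s, D^[i] G ∈ Q}` is a `K`-subspace (by (1) for `i < s`).
(3) `dim L ≤ dim (V s) + s * u`: induction on `s`.  `V 0 = L.baseChange K`, of dimension `dim L` (`Module.finrank_baseChange`; compare `finrank_M` in H24/TU/OrdB).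
The map `V s → R ⧸ Q`, `G ↦ mk (D^[s] G)` is `K`-linear by (1), its kernel is `V (s + 1)`, and its image is in the image of `L.baseChange K`
because `D` maps `L.baseChange K` to itself (compare `M_dX`): rank-nullity (`LinearMap.finrank_range_add_finrank_ker`).
(4) `s * u < dim L`: `V s ≠ ⊥`.
-/

set_option autoImplicit false

open scoped TensorProduct

namespace Pool.Agent.H32.TZ

open Pool.Agent.H24.TU

variable {k K : Type} [Field k] [Field K] [Algebra k K]

private theorem ex_dX_smul (θ : Derivation k K K) (c : K) (x : K ⊗[k] K) :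
    dX K θ (c • x) = c • dX K θ x + θ c • x := by
  induction x using TensorProduct.induction_on with
  | zero => simp
  | add a b ha hb =>
    rw [smul_add, map_add, ha, hb, map_add, smul_add, smul_add]
    abel
  | tmul y f =>
    rw [TensorProduct.smul_tmul', dX_tmul, dX_tmul, TensorProduct.smul_tmul',
      TensorProduct.smul_tmul', smul_eq_mul, smul_eq_mul, smul_eq_mul, Derivation.leibniz,
      smul_eq_mul, smul_eq_mul, TensorProduct.add_tmul, mul_comm (θ c) y]

private theorem ex_smul_mem (Q : Ideal (K ⊗[k] K)) (a : K) {G : K ⊗[k] K} (hG : G ∈ Q) :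
    a • G ∈ Q := by
  rw [Algebra.smul_def]
  exact Q.mul_mem_left _ hG

private theorem ex_key (Q : Ideal (K ⊗[k] K)) (Θ : Derivation k K K) (s : ℕ) :
    ∀ (a : K) (G : K ⊗[k] K), (∀ i < s, (dX K Θ)^[i] G ∈ Q) →
      (dX K Θ)^[s] (a • G) - a • (dX K Θ)^[s] G ∈ Q := by
  induction s with
  | zero =>
    intro a G _
    rw [Function.iterate_zero, id, id, sub_self]
    exact Q.zero_mem
  | succ s ih =>
    intro a G hG
    rw [Function.iterate_succ_apply, Function.iterate_succ_apply, ex_dX_smul, iterate_map_add]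
    have h1 := ih a (dX K Θ G) (fun i hi => by
      have h := hG (i + 1) (by omega)
      rwa [Function.iterate_succ_apply] at h)
    have h2 := ih (Θ a) G (fun i hi => hG i (by omega))
    have h3 : Θ a • (dX K Θ)^[s] G ∈ Q := ex_smul_mem Q _ (hG s (by omega))
    have h4 := Q.add_mem h1 (Q.add_mem h2 h3)
    rw [sub_add_cancel] at h4
    rw [sub_add_eq_add_sub] at h4
    exact h4

private theorem ex_dX_mem (L : Submodule k K) (Θ : Derivation k K K) {G : K ⊗[k] K}
    (hG : G ∈ L.baseChange K) : dX K Θ G ∈ L.baseChange K := by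
  have e : L.baseChange K = Submodule.span K ((fun f : K => (1 : K) ⊗ₜ[k] f) '' (L : Set K)) := by
    rw [Submodule.baseChange_eq_span]
    rfl
  rw [e] at hG
  induction hG using Submodule.span_induction with
  | mem a ha =>
    obtain ⟨f, hf, rfl⟩ := ha
    change dX K Θ ((1 : K) ⊗ₜ[k] f) ∈ _
    rw [dX_tmul]
    exact Submodule.tmul_mem_baseChange_of_mem _ hf
  | zero =>
    rw [map_zero]
    exact zero_mem _
  | add x y _ _ hx hy =>
    rw [map_add]
    exact add_mem hx hy
  | smul c x hx0 hx =>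
    rw [ex_dX_smul]
    refine add_mem (Submodule.smul_mem _ _ hx) (Submodule.smul_mem _ _ ?_)
    rw [e]
    exact hx0

private theorem ex_iter_mem (L : Submodule k K) (Θ : Derivation k K K) (s : ℕ) {G : K ⊗[k] K}
    (hG : G ∈ L.baseChange K) : (dX K Θ)^[s] G ∈ L.baseChange K := by
  induction s generalizing G with
  | zero => exact hG
  | succ s ih =>
    rw [Function.iterate_succ_apply]
    exact ih (ex_dX_mem L Θ hG)

private theorem ex_iter_zero (Θ : Derivation k K K) (s : ℕ) :
    (dX K Θ)^[s] (0 : K ⊗[k] K) = 0 := by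
  induction s with
  | zero => rfl
  | succ s ih => rw [Function.iterate_succ_apply, map_zero, ih]

private def exV (L : Submodule k K) (Q : Ideal (K ⊗[k] K)) (Θ : Derivation k K K) (s : ℕ) :
    Submodule K (K ⊗[k] K) where
  carrier := {G | G ∈ L.baseChange K ∧ ∀ i < s, (dX K Θ)^[i] G ∈ Q}
  add_mem' := by
    intro a b ha hb
    refine ⟨add_mem ha.1 hb.1, fun i hi => ?_⟩
    rw [iterate_map_add]
    exact Q.add_mem (ha.2 i hi) (hb.2 i hi)
  zero_mem' := by
    refine ⟨zero_mem _, fun i _ => ?_⟩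
    rw [ex_iter_zero]
    exact Q.zero_mem
  smul_mem' := by
    intro c x hx
    refine ⟨Submodule.smul_mem _ _ hx.1, fun i hi => ?_⟩
    have h1 := ex_key Q Θ i c x (fun j hj => hx.2 j (by omega))
    have h2 := Q.add_mem h1 (ex_smul_mem Q c (hx.2 i hi))
    rwa [sub_add_cancel] at h2

private theorem mem_exV {L : Submodule k K} {Q : Ideal (K ⊗[k] K)} {Θ : Derivation k K K} {s : ℕ}
    {G : K ⊗[k] K} :
    G ∈ exV L Q Θ s ↔ G ∈ L.baseChange K ∧ ∀ i < s, (dX K Θ)^[i] G ∈ Q := Iff.rfl

private noncomputable def exF (L : Submodule k K) (Q : Ideal (K ⊗[k] K)) (Θ : Derivation k K K)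
    (s : ℕ) : exV L Q Θ s →ₗ[K] ((K ⊗[k] K) ⧸ Q) where
  toFun := fun G => Ideal.Quotient.mk Q ((dX K Θ)^[s] (G : K ⊗[k] K))
  map_add' := by
    intro a b
    rw [Submodule.coe_add, iterate_map_add, map_add]
  map_smul' := by
    intro c x
    have h1 := ex_key Q Θ s c x x.2.2
    rw [← Ideal.Quotient.eq] at h1
    rw [Submodule.coe_smul, h1, RingHom.id_apply]
    rfl

private theorem exF_apply (L : Submodule k K) (Q : Ideal (K ⊗[k] K)) (Θ : Derivation k K K)
    (s : ℕ) (G : exV L Q Θ s) :
    exF L Q Θ s G = Ideal.Quotient.mk Q ((dX K Θ)^[s] (G : K ⊗[k] K)) := rfl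

private theorem ex_bc_finite (L : Submodule k K) [FiniteDimensional k L] :
    Module.Finite K (L.baseChange K) := by
  have e : L.baseChange K = LinearMap.range (L.subtype.baseChange K) := rfl
  rw [e]
  infer_instance

private theorem ex_bc_finrank (L : Submodule k K) [FiniteDimensional k L] :
    Module.finrank K (L.baseChange K) = Module.finrank k L := by
  have e : L.baseChange K = LinearMap.range (L.subtype.baseChange K) := rfl
  have hinj : Function.Injective (L.subtype.baseChange K) :=
    Module.Flat.lTensor_preserves_injective_linearMap (M := K) L.subtype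
      (Submodule.subtype_injective _)
  rw [e, LinearMap.finrank_range_of_inj hinj]
  exact Module.finrank_baseChange

private theorem exV_le (L : Submodule k K) (Q : Ideal (K ⊗[k] K)) (Θ : Derivation k K K)
    (s : ℕ) : exV L Q Θ s ≤ L.baseChange K := fun _ hG => hG.1

private theorem exV_finite (L : Submodule k K) [FiniteDimensional k L] (Q : Ideal (K ⊗[k] K))
    (Θ : Derivation k K K) (s : ℕ) : Module.Finite K (exV L Q Θ s) := by
  have := ex_bc_finite L
  exact Submodule.finiteDimensional_of_le (exV_le L Q Θ s)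

private theorem ex_step (L : Submodule k K) [FiniteDimensional k L] (Q : Ideal (K ⊗[k] K))
    (Θ : Derivation k K K) {u : ℕ}
    (hu : Module.finrank K ((L.baseChange K).map (Ideal.Quotient.mkₐ K Q).toLinearMap) ≤ u)
    (s : ℕ) : Module.finrank K (exV L Q Θ s) ≤ Module.finrank K (exV L Q Θ (s + 1)) + u := by
  have h0 := ex_bc_finite L
  have h1 := exV_finite L Q Θ s
  have h2 := exV_finite L Q Θ (s + 1)
  have h3 := LinearMap.finrank_range_add_finrank_ker (exF L Q Θ s)
  have h4 : LinearMap.range (exF L Q Θ s) ≤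
      (L.baseChange K).map (Ideal.Quotient.mkₐ K Q).toLinearMap := by
    rintro _ ⟨G, rfl⟩
    exact ⟨(dX K Θ)^[s] (G : K ⊗[k] K), ex_iter_mem L Θ s G.2.1, rfl⟩
  have h5 : Module.finrank K (LinearMap.range (exF L Q Θ s)) ≤ u :=
    (Submodule.finrank_mono h4).trans hu
  have h6 : (LinearMap.ker (exF L Q Θ s)).map (exV L Q Θ s).subtype ≤ exV L Q Θ (s + 1) := by
    rintro _ ⟨G, hG, rfl⟩
    refine ⟨G.2.1, fun i hi => ?_⟩
    rcases Nat.lt_succ_iff_lt_or_eq.1 hi with h | h
    · exact G.2.2 i h
    · subst h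
      have h7 : exF L Q Θ i G = 0 := hG
      rw [exF_apply, Ideal.Quotient.eq_zero_iff_mem] at h7
      exact h7
  have h7 : Module.finrank K (LinearMap.ker (exF L Q Θ s)) ≤
      Module.finrank K (exV L Q Θ (s + 1)) := by
    rw [← Submodule.finrank_map_subtype_eq]
    exact Submodule.finrank_mono h6
  omega

theorem exists_single (L : Submodule k K) [FiniteDimensional k L] (Q : Ideal (K ⊗[k] K)) (Θ : Derivation k K K) {u s : ℕ}
    (hu : Module.finrank K ((L.baseChange K).map (Ideal.Quotient.mkₐ K Q).toLinearMap) ≤ u)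
    (hs : s * u < Module.finrank k L) :
    ∃ G ∈ L.baseChange K, G ≠ 0 ∧ ∀ i < s, (dX K Θ)^[i] G ∈ Q := by
  have h1 : ∀ s : ℕ, Module.finrank k L ≤ Module.finrank K (exV L Q Θ s) + s * u := by
    intro s
    induction s with
    | zero =>
      have e : exV L Q Θ 0 = L.baseChange K := by
        refine le_antisymm (exV_le L Q Θ 0) fun G hG => ⟨hG, fun i hi => ?_⟩
        omega
      rw [e, ex_bc_finrank L]
      omega
    | succ s ih =>
      have h2 := ex_step L Q Θ hu s
      rw [add_mul, one_mul]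
      omega
  have h2 := h1 s
  have h3 : exV L Q Θ s ≠ ⊥ := by
    intro h
    rw [h, finrank_bot] at h2
    omega
  obtain ⟨G, hG, hG0⟩ := Submodule.exists_mem_ne_zero_of_ne_bot h3
  exact ⟨G, hG.1, hG0, hG.2⟩

end Pool.Agent.H32.TZ
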