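import Pool.Agent.H32.TZ.Trv

/-!
# [H32 TZ HON] THEOREM Z (MP_e49dc9_ag), SURF: one coefficient derivation is enough

`Q` a prime of `X ⊗[k] K` with `trdeg_X ≥ 2`, `Θ` a derivation of the coefficients `X`, `f ∈ Q` with `dX K Θ f ∉ Q`.

`single_step`: `h ∈ Q` and `dX K Θ h ∈ Q` imply `dK X δ h ∈ Q` for all derivations `δ` of `K`.
PROOF.  `i` from `exists_transv`.  Suppose `dK X δ h ∉ Q` for some `δ`; then `a := dK X (C.d i) h ∉ Q`; `b := dK X (C.d i) f`; `g := a * f - b * h ∈ Q`.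
`dK X (C.d i) g = (C.d i a) * f + a * b - (C.d i b) * h - b * a ∈ Q`, so `dK X δ' g ∈ Q` for all `δ'` (`exists_transv`), so `dX K Θ g ∈ Q`
(`smooth_step'` of H24/TU/LemS).  But `dX K Θ g = (Θ a) f + a (Θ f) - (Θ b) h - b (Θ h)` and `f, h, Θ h ∈ Q`: so `a * dX K Θ f ∈ Q`, a contradiction as
`Q` is prime.

`ordGE_of_single`: if `(dX K Θ)^[i] g ∈ Q` for all `i < s` then `OrdGE Q s g`.
PROOF.  Induction on `s` (for all `g`).  `s + 1`: `g ∈ Q` (`i = 0`); for `δ`: to show `OrdGE Q s (dK X δ g)`: by the induction hypothesis it is enough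
that `(dX K Θ)^[i] (dK X δ g) = dK X δ ((dX K Θ)^[i] g) ∈ Q` for `i < s` (`dX_dK_comm`, induction on `i`), and this is `single_step` for
`h := (dX K Θ)^[i] g` (`h ∈ Q`, `dX K Θ h = (dX K Θ)^[i + 1] g ∈ Q` as `i + 1 < s + 1`).
-/

set_option autoImplicit false

open scoped TensorProduct

namespace Pool.Agent.H32.TZ

open Pool.Agent.H24.TU

variable {k X K : Type} [Field k] [CharZero k] [Field X] [Field K] [Algebra k X] [Algebra k K]

theorem single_step [Algebra.EssFiniteType k K] (C : Coord k K) {Q : Ideal (X ⊗[k] K)} (hQ : Q.IsPrime)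
    (htr : 2 ≤ Algebra.trdeg X ((X ⊗[k] K) ⧸ Q)) (Θ : Derivation k X X) {f : X ⊗[k] K} (hf : f ∈ Q)
    (hΘ : dX K Θ f ∉ Q) {h : X ⊗[k] K} (hh : h ∈ Q) (hh' : dX K Θ h ∈ Q) (δ : Derivation k K K) :
    dK X δ h ∈ Q := by
  obtain ⟨i, hi⟩ := exists_transv C hQ htr
  by_contra hδ
  set a := dK X (C.d i) h with ha
  set b := dK X (C.d i) f with hb
  have haQ : a ∉ Q := fun h1 => hδ (hi h hh h1 δ)
  set g := a * f - b * h with hg
  have hgQ : g ∈ Q := Q.sub_mem (Q.mul_mem_left _ hf) (Q.mul_mem_left _ hh)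
  have hdg : dK X (C.d i) g ∈ Q := by
    have e : dK X (C.d i) g = dK X (C.d i) a * f - dK X (C.d i) b * h := by
      rw [hg, map_sub, Derivation.leibniz, Derivation.leibniz, smul_eq_mul, smul_eq_mul,
        smul_eq_mul, smul_eq_mul, ← ha, ← hb]
      ring
    rw [e]
    exact Q.sub_mem (Q.mul_mem_left _ hf) (Q.mul_mem_left _ hh)
  have hall : ∀ δ' : Derivation k K K, dK X δ' g ∈ Q := hi g hgQ hdg
  have hΘg : dX K Θ g ∈ Q := smooth_step' hQ hgQ hall Θ
  have e2 : dX K Θ g = a * dX K Θ f + (dX K Θ a * f - dX K Θ b * h - b * dX K Θ h) := by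
    rw [hg, map_sub, Derivation.leibniz, Derivation.leibniz, smul_eq_mul, smul_eq_mul,
      smul_eq_mul, smul_eq_mul]
    ring
  have h3 : dX K Θ a * f - dX K Θ b * h - b * dX K Θ h ∈ Q :=
    Q.sub_mem (Q.sub_mem (Q.mul_mem_left _ hf) (Q.mul_mem_left _ hh)) (Q.mul_mem_left _ hh')
  have h4 : a * dX K Θ f ∈ Q := by
    rw [e2] at hΘg
    exact (Ideal.add_mem_iff_left Q h3).1 hΘg
  rcases hQ.mem_or_mem h4 with h5 | h5
  · exact haQ h5
  · exact hΘ h5

theorem ordGE_of_single [Algebra.EssFiniteType k K] (C : Coord k K) {Q : Ideal (X ⊗[k] K)} (hQ : Q.IsPrime)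
    (htr : 2 ≤ Algebra.trdeg X ((X ⊗[k] K) ⧸ Q)) (Θ : Derivation k X X) {f : X ⊗[k] K} (hf : f ∈ Q)
    (hΘ : dX K Θ f ∉ Q) (s : ℕ) {g : X ⊗[k] K} (hg : ∀ i < s, (dX K Θ)^[i] g ∈ Q) : OrdGE Q s g := by
  have hcomm : ∀ (δ : Derivation k K K) (i : ℕ) (g : X ⊗[k] K),
      (dX K Θ)^[i] (dK X δ g) = dK X δ ((dX K Θ)^[i] g) := by
    intro δ i
    induction i with
    | zero => intro g; rfl
    | succ i ih =>
      intro g
      rw [Function.iterate_succ_apply, Function.iterate_succ_apply, dX_dK_comm, ih]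
  induction s generalizing g with
  | zero => trivial
  | succ s ih =>
    refine ⟨hg 0 (Nat.succ_pos s), fun δ => ih fun i hi => ?_⟩
    rw [hcomm]
    refine single_step C hQ htr Θ hf hΘ (hg i (by omega)) ?_ δ
    have h1 := hg (i + 1) (by omega)
    rwa [Function.iterate_succ_apply'] at h1

end Pool.Agent.H32.TZ
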