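import Pool.Agent.H24.TU.Cmp

/-!
# [H32 TZ JET] THEOREM Z (MP_e49dc9_ag), SURF and G1: counting jets at the diagonal

`L` a finite dimensional subspace of `K`, `Q` an ideal of `R = K ⊗[k] K`.
`finrank_image_le`: if all `G ∈ L.baseChange K` with `OrdGE (dI k K) m G` are in `Q`, then the image of `L.baseChange K` in `R ⧸ Q` has dimension at most
`(m + 2).choose 3` over `K`.

PROOF.  `tay C` (H24/TU/TayDef, TayOrd) is `K`-linear (additive: `tay_add`; multiplicative `tay_mul`, and `tay C (a ⊗ₜ 1)` is the constant `a`, see TayRing / TayDef).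
The map `J : L.baseChange K → ({a : Fin 3 →₀ ℕ // a.degree < m} → K)`, `G ↦ (coeff a (tay C G))_a` is `K`-linear with kernel `{G | OrdGE (dI k K) m G}` (`ordGE_iff`), which
is contained in the kernel of `L.baseChange K → R ⧸ Q`.  So the dimension of the image in `R ⧸ Q` is at most the dimension of the range of `J`
(`LinearMap.finrank_range_add_finrank_ker` for both maps, `Submodule.finrank_mono` for the kernels), at most the number of the exponents of degree `< m`, which is
`(m + 2).choose 3` (for `m = d + 1` this is the private lemma in H24/TU/Cmp lines 52 to 90: `{a | a.degree ≤ d}.ncard = (d + 3).choose 3`; copy it; `m = 0`: no exponents).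
`finrank_le_of_ord`: if every `G ∈ L.baseChange K` with `OrdGE (dI k K) m G` is `0` then `finrank k L ≤ (m + 2).choose 3`: the case `Q = ⊥` (the map
`R → R ⧸ ⊥` is injective; `Module.finrank_baseChange`, compare `finrank_M` in H24/TU/OrdB).
-/

set_option autoImplicit false

open scoped TensorProduct

namespace Pool.Agent.H32.TZ

open Pool.Agent.H24.TU

variable {k K : Type} [Field k] [CharZero k] [IsAlgClosed k] [Field K] [Algebra k K]

private theorem base_fin (L : Submodule k K) [FiniteDimensional k L] :
    Module.Finite K (L.baseChange K) := by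
  have h : L.baseChange K = LinearMap.range (L.subtype.baseChange K) := rfl
  rw [h]
  infer_instance

private theorem base_finrank (L : Submodule k K) [FiniteDimensional k L] :
    Module.finrank K (L.baseChange K) = Module.finrank k L := by
  have h : L.baseChange K = LinearMap.range (L.subtype.baseChange K) := rfl
  have hinj : Function.Injective (L.subtype.baseChange K) :=
    Module.Flat.lTensor_preserves_injective_linearMap (M := K) L.subtype
      (Submodule.subtype_injective _)
  rw [h, LinearMap.finrank_range_of_inj hinj]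
  exact Module.finrank_baseChange

/-- a general bound: the range of a map whose kernel contains the kernel of a second map -/
private theorem range_le {F V W U : Type} [Field F] [AddCommGroup V] [Module F V]
    [AddCommGroup W] [Module F W] [AddCommGroup U] [Module F U] [Module.Finite F V]
    (φ : V →ₗ[F] W) (J : V →ₗ[F] U) (h : LinearMap.ker J ≤ LinearMap.ker φ) :
    Module.finrank F (LinearMap.range φ) ≤ Module.finrank F (LinearMap.range J) := by
  have h1 := LinearMap.finrank_range_add_finrank_ker φ
  have h2 := LinearMap.finrank_range_add_finrank_ker J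
  have h3 := Submodule.finrank_mono h
  omega

theorem finrank_image_le (C : Coord k K) (L : Submodule k K) [FiniteDimensional k L] (Q : Ideal (K ⊗[k] K)) {m : ℕ}
    (h : ∀ G ∈ L.baseChange K, OrdGE (dI k K) m G → G ∈ Q) :
    Module.finrank K ((L.baseChange K).map (Ideal.Quotient.mkₐ K Q).toLinearMap) ≤ (m + 2).choose 3 := by
  classical
  have hfin := base_fin (k := k) (K := K) L
  set φ : (L.baseChange K) →ₗ[K] ((K ⊗[k] K) ⧸ Q) :=
    (Ideal.Quotient.mkₐ K Q).toLinearMap ∘ₗ (L.baseChange K).subtype with hφ
  have hrange : (L.baseChange K).map (Ideal.Quotient.mkₐ K Q).toLinearMap = LinearMap.range φ := by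
    rw [hφ, LinearMap.range_comp, Submodule.range_subtype]
  rw [hrange]
  have hfinS : {a : Fin 3 →₀ ℕ | a.degree < m}.Finite ∧
      {a : Fin 3 →₀ ℕ | a.degree < m}.ncard = (m + 2).choose 3 := by
    rcases m with _ | d
    · have h0 : {a : Fin 3 →₀ ℕ | a.degree < 0} = ∅ := by
        ext a
        simp
      rw [h0]
      exact ⟨Set.finite_empty, by simp⟩
    · have h1 := card_degree_le d
      have h0 : {a : Fin 3 →₀ ℕ | a.degree < d + 1} = {a : Fin 3 →₀ ℕ | a.degree ≤ d} := by
        ext a
        simp only [Set.mem_ofPred_eq]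
        omega
      rw [h0]
      exact h1
  obtain ⟨hF, hc⟩ := hfinS
  have : Fintype {a : Fin 3 →₀ ℕ | a.degree < m} := hF.fintype
  let J : (L.baseChange K) →ₗ[K] ({a : Fin 3 →₀ ℕ | a.degree < m} → K) :=
    { toFun := fun f a => MvPowerSeries.coeff (a : Fin 3 →₀ ℕ) (tay C (f : K ⊗[k] K))
      map_add' := by
        intro f g
        funext a
        rw [Submodule.coe_add, tay_add, map_add]
        rfl
      map_smul' := by
        intro c f
        funext a
        rw [Submodule.coe_smul, tay_smul, map_smul]
        rfl }
  have hker : LinearMap.ker J ≤ LinearMap.ker φ := by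
    intro G hG
    rw [LinearMap.mem_ker] at hG ⊢
    have h1 : OrdGE (dI k K) m (G : K ⊗[k] K) := by
      rw [ordGE_iff C]
      intro a ha
      exact congrFun hG ⟨a, ha⟩
    have h2 := h G G.2 h1
    show Ideal.Quotient.mk Q (G : K ⊗[k] K) = 0
    exact Ideal.Quotient.eq_zero_iff_mem.2 h2
  refine (range_le φ J hker).trans ?_
  refine (Submodule.finrank_le _).trans ?_
  rw [Module.finrank_pi]
  rw [← hc, Set.ncard_eq_toFinset_card' , Set.toFinset_card]

theorem finrank_le_of_ord (C : Coord k K) (L : Submodule k K) [FiniteDimensional k L] {m : ℕ}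
    (h : ∀ G ∈ L.baseChange K, OrdGE (dI k K) m G → G = 0) : Module.finrank k L ≤ (m + 2).choose 3 := by
  have hfin := base_fin (k := k) (K := K) L
  have h1 := finrank_image_le C L (⊥ : Ideal (K ⊗[k] K)) (m := m)
    (fun G hG hG' => by rw [Ideal.mem_bot]; exact h G hG hG')
  have hinj : Function.Injective (Ideal.Quotient.mkₐ K (⊥ : Ideal (K ⊗[k] K))).toLinearMap := by
    rw [injective_iff_map_eq_zero]
    intro x hx
    have h2 : Ideal.Quotient.mk (⊥ : Ideal (K ⊗[k] K)) x = 0 := hx
    rw [Ideal.Quotient.eq_zero_iff_mem, Ideal.mem_bot] at h2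
    exact h2
  have h2 : Module.finrank K ((L.baseChange K).map
      (Ideal.Quotient.mkₐ K (⊥ : Ideal (K ⊗[k] K))).toLinearMap) =
      Module.finrank K (L.baseChange K) :=
    ((Submodule.equivMapOfInjective _ hinj (L.baseChange K)).finrank_eq).symm
  rw [h2, base_finrank] at h1
  exact h1

end Pool.Agent.H32.TZ
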