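import Pool.Agent.H24.TU.LemS
import Pool.Agent.H24.TU.OrdB

/-!
# [H32 TZ THT] THEOREM Z (MP_e49dc9_ag), SURF: a coefficient derivation which does not preserve a prime

`exists_theta` (`k` algebraically closed, `X = K`): `Q ≠ ⊥` prime: there are `Θ : Derivation k K K` and `f ∈ Q` with `dX K Θ f ∉ Q`.
PROOF.  Otherwise `dX K Θ f ∈ Q` for all `f ∈ Q` and all `Θ`.  Take `0 ≠ g ∈ Q` and an expression `g = ∑ i : Fin n, a i ⊗ₜ f i` with `n` minimal (among all
nonzero elements of `Q`).  Then the `a i` are nonzero and the `f i` are linearly independent over `k` (otherwise a shorter expression).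
Multiply by `(a 0)⁻¹ ⊗ₜ 1`: `a 0 = 1`.  For every `Θ` the element `dX K Θ g = ∑ i ≥ 1, Θ (a i) ⊗ₜ f i ∈ Q` is shorter, so it is `0`, so `Θ (a i) = 0` for all
`i`, by linear independence of the `f i` over `k`.  An element `a` of `K` with `Θ a = 0` for all `Θ` is algebraic over `k` (if it is transcendental it is part of a transcendence
basis, `exists_isTranscendenceBasis_superset`, and `exists_derivation` of H24/TU/DerEx gives `Θ` with `Θ a = 1`), so it is in `k` (`k` algebraically
closed: `IsAlgClosed.algebraMap_bijective_of_isIntegral` or `IsAlgClosed.algebraMap_surjective_of_isIntegral'`; compare H41/TQ/Cst.lean).  So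
`g = 1 ⊗ₜ (∑ i, a i • f i)` with a nonzero second factor: a unit of `K ⊗[k] K` in `Q`, a contradiction.
-/

set_option autoImplicit false

open scoped TensorProduct

namespace Pool.Agent.H32.TZ

open Pool.Agent.H24.TU

variable {k K : Type} [Field k] [CharZero k] [Field K] [Algebra k K]

private theorem const_of [IsAlgClosed k] {x : K} (hall : ∀ δ : Derivation k K K, δ x = 0) :
    ∃ r : k, algebraMap k K r = x := by
  have halg : IsAlgebraic k x := by
    by_contra hcon
    have h1 : AlgebraicIndepOn k id ({x} : Set K) := by
      show AlgebraicIndependent k (fun y : ({x} : Set K) => (y : K))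
      rw [algebraicIndependent_unique_type_iff]
      exact hcon
    obtain ⟨t, ht1, ht2⟩ := exists_isTranscendenceBasis_superset h1
    obtain ⟨D, hD⟩ := exists_derivation (M := K) ht2 (fun _ => (1 : K))
    have h2 := hD ⟨x, ht1 rfl⟩
    have h3 : D x = 1 := h2
    rw [hall D] at h3
    exact zero_ne_one h3
  have h4 := minpoly.mem_range_of_degree_eq_one k x
    (IsAlgClosed.degree_eq_one_of_irreducible k (minpoly.irreducible halg.isIntegral))
  exact h4

theorem exists_theta [IsAlgClosed k] {Q : Ideal (K ⊗[k] K)} (hQ : Q.IsPrime) (hne : Q ≠ ⊥) :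
    ∃ Θ : Derivation k K K, ∃ f ∈ Q, dX K Θ f ∉ Q := by
  classical
  by_contra hcon
  have hst : ∀ (Θ : Derivation k K K), ∀ f ∈ Q, dX K Θ f ∈ Q := by
    intro Θ f hf
    by_contra h
    exact hcon ⟨Θ, f, hf, h⟩
  apply hne
  set b := Module.Basis.ofVectorSpace k K with hb
  set B := Algebra.TensorProduct.basis K b with hB
  have hrepr : ∀ (Θ : Derivation k K K) (g : K ⊗[k] K) (α), B.repr (dX K Θ g) α =
      Θ (B.repr g α) := by
    intro Θ g α
    induction g using TensorProduct.induction_on with
    | zero => simp
    | add u v hu hv => simp only [map_add, Finsupp.add_apply, hu, hv]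
    | tmul x f =>
      rw [dX_tmul, hB, Algebra.TensorProduct.basis_repr_tmul,
        Algebra.TensorProduct.basis_repr_tmul, Finsupp.smul_apply, Finsupp.smul_apply,
        Finsupp.mapRange_apply, smul_eq_mul, smul_eq_mul, Derivation.leibniz,
        Derivation.map_algebraMap, smul_zero, zero_add, smul_eq_mul, mul_comm]
  have key : ∀ n : ℕ, ∀ g : K ⊗[k] K, g ∈ Q → (B.repr g).support.card = n → g = 0 := by
    intro n
    induction n using Nat.strong_induction_on with
    | _ n ih =>
      intro g hg hn
      by_contra hg0
      have h1 : B.repr g ≠ 0 := by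
        intro h0
        exact hg0 ((LinearEquiv.map_eq_zero_iff B.repr).1 h0)
      obtain ⟨α0, hα0⟩ := Finsupp.support_nonempty_iff.2 h1
      have hc : B.repr g α0 ≠ 0 := Finsupp.mem_support_iff.1 hα0
      set g' := (B.repr g α0)⁻¹ • g with hg'
      have hg'0 : g' ∈ Q := by
        rw [hg', ← one_mul g, ← smul_mul_assoc]
        exact Q.mul_mem_left _ hg
      have hg'1 : g' ≠ 0 := by
        rw [hg']
        exact smul_ne_zero (inv_ne_zero hc) hg0
      have hr' : ∀ α, B.repr g' α = (B.repr g α0)⁻¹ * B.repr g α := by
        intro α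
        rw [hg', map_smul, Finsupp.smul_apply, smul_eq_mul]
      have hd : ∀ Θ : Derivation k K K, dX K Θ g' = 0 := by
        intro Θ
        have h2 : dX K Θ g' ∈ Q := hst Θ g' hg'0
        have h3 : (B.repr (dX K Θ g')).support ⊂ (B.repr g).support := by
          rw [Finset.ssubset_iff_of_subset]
          · refine ⟨α0, hα0, ?_⟩
            rw [Finsupp.notMem_support_iff, hrepr, hr', inv_mul_cancel₀ hc,
              Derivation.map_one_eq_zero]
          · intro α hα
            rw [Finsupp.mem_support_iff] at hα ⊢
            intro h4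
            apply hα
            rw [hrepr, hr', h4, mul_zero, map_zero]
        exact ih _ (by rw [← hn]; exact Finset.card_lt_card h3) _ h2 rfl
      have hconst : ∀ α, ∃ r : k, algebraMap k K r = B.repr g' α := by
        intro α
        refine const_of fun Θ => ?_
        rw [← hrepr, hd, map_zero, Finsupp.zero_apply]
      choose r hr using hconst
      have hsum : g' = (1 : K) ⊗ₜ[k] (∑ α ∈ (B.repr g').support, r α • b α) := by
        have h5 := B.linearCombination_repr g'
        rw [Finsupp.linearCombination_apply, Finsupp.sum] at h5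
        rw [TensorProduct.tmul_sum]
        conv_lhs => rw [← h5]
        refine Finset.sum_congr rfl fun α _ => ?_
        rw [← hr α, hB, Algebra.TensorProduct.basis_apply, TensorProduct.smul_tmul', smul_eq_mul,
          mul_one, TensorProduct.tmul_smul, TensorProduct.smul_tmul', Algebra.smul_def, mul_one]
      set v := ∑ α ∈ (B.repr g').support, r α • b α with hv
      have hv0 : v ≠ 0 := by
        intro h0
        apply hg'1
        rw [hsum, h0, TensorProduct.tmul_zero]
      apply hQ.ne_top
      rw [Ideal.eq_top_iff_one]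
      have h6 : ((1 : K) ⊗ₜ[k] v⁻¹) * g' = 1 := by
        rw [hsum, Algebra.TensorProduct.tmul_mul_tmul, one_mul, inv_mul_cancel₀ hv0]
        rfl
      rw [← h6]
      exact Q.mul_mem_left _ hg'0
  rw [eq_bot_iff]
  intro g hg
  rw [Ideal.mem_bot]
  exact key _ g hg rfl

end Pool.Agent.H32.TZ
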