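import Pool.Agent.H32.TZ.Itf
import Pool.Agent.H32.TZ.Hon
import Pool.Agent.H32.TZ.Tht
import Pool.Agent.H32.TZ.Cnt
import Pool.Agent.H32.TZ.Jet
import Pool.Agent.H24.TV.StM
import Pool.Agent.H24.TV.FinV
import Pool.Agent.H24.TK.Fin
import Pool.Agent.H24.TU.Coo

/-!
# [H32 TZ SURF] THEOREM Z (MP_e49dc9_ag), SURF: a surface gives sections which vanish to high order

`ess`: the function field is finitely generated.
`surf_mov`: a surface `Q` which contains all `G ∈ L(D) ⊗ K` of order at least `κ + 1` at the generic point: for every `m` with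
`(m + 1) C(κ + 3, 3) < h0(D)` there are infinitely many prime divisors along which a section of `D` vanishes to order at least `m + 1`.
-/

set_option autoImplicit false

open scoped TensorProduct

namespace Pool.Agent.H32.TZ

open Pool.Agent.H54.RV Pool.Agent.H83.TU Pool.Agent.H24.TU Pool.Agent.H24.TV Pool.Agent.H20.TU Pool.Agent.H39.TU

variable {k K : Type} [Field k] [Field K] [Algebra k K] {X : Mod k K}

theorem ess (h : Hyp X) : Algebra.EssFiniteType k K := by
  have h1 := K_fg h.var h.gen
  have h2 := IntermediateField.essFiniteType_iff.2 h1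
  exact Algebra.EssFiniteType.of_surjective
    (IntermediateField.topEquiv (F := k) (E := K)).toAlgHom
    (IntermediateField.topEquiv (F := k) (E := K)).surjective

theorem surf_mov [IsAlgClosed k] [CharZero k] (h : Hyp X) : SurfMov X := by
  rintro D κ u hu ⟨Q, hQ, htr, hG⟩ m hm hT
  have hess := ess h
  obtain ⟨C⟩ := exists_coord (k := k) (K := K) h.tr
  obtain ⟨A, hA⟩ := h.amp
  have hfd : FiniteDimensional k (secL D 1) := Pool.Agent.H24.TK.fd h.var h.gen hA D
  have h1 : Module.finrank K (((secL D 1).baseChange K).map (Ideal.Quotient.mkₐ K Q).toLinearMap) ≤ u :=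
    (finrank_image_le C (secL D 1) Q (m := κ + 1) hG).trans hu
  have hm' : (m + 1) * u < Module.finrank k (secL D 1) := hm
  have hne : Q ≠ ⊥ := by
    rintro rfl
    have h2 := finrank_le_of_ord C (secL D 1) (m := κ + 1) (fun G h3 h4 => by
      have := hG G h3 h4
      rwa [Ideal.mem_bot] at this)
    have h3 : (κ + 1 + 2).choose 3 ≤ u := hu
    have h4 : u ≤ (m + 1) * u := Nat.le_mul_of_pos_left u (Nat.succ_pos m)
    omega
  obtain ⟨Θ, f, hf, hΘ⟩ := exists_theta hQ hne
  obtain ⟨G, hGL, hG0, hGi⟩ := exists_single (secL D 1) Q Θ h1 hm'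
  have h5 : OrdGE Q (m + 1) G := ordGE_of_single C hQ (by rw [htr]) Θ hf hΘ (m + 1) hGi
  exact star_m h.var h.gen h.ufd h.tr C D m hT K G hGL hG0 Q hQ (by rw [htr]) h5

end Pool.Agent.H32.TZ
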