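import Pool.Agent.H32.TZ.Eng
import Pool.Agent.H32.TZ.Surf
import Pool.Agent.H32.TZ.FldP
import Pool.Agent.H41.ZC.Fin

/-!
# [H32 TZ EngA] THEOREM Z (MP_e49dc9_ag): the engine, without hypotheses
-/

set_option autoImplicit false

open scoped TensorProduct

namespace Pool.Agent.H32.TZ

open Pool.Agent.H54.RV Pool.Agent.H83.TU Pool.Agent.H24.TU Pool.Agent.H24.TV Pool.Agent.H39.TQ Pool.Agent.H41.ZC

variable {k K : Type} [Field k] [Field K] [Algebra k K] {X : Mod k K}

theorem chainB [IsAlgClosed k] [CharZero k] (h : Hyp X) : ChainB k K := by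
  have hess := ess h
  intro L F F' u u' hL hF hF' hc hc' hne hg hg' hn
  exact chain_z h.tr L F F' u u' hL hF hF' hc hc' hne hg hg' hn

theorem endP [IsAlgClosed k] [CharZero k] (h : Hyp X) : EndP h.var h.gen := by
  intro D F u κ₀ h0' hF hPF hC hG hn
  exact end_z h D F u κ₀ h0' hF hPF hG hn

/-- **the engine** -/
theorem engine_all [IsAlgClosed k] [CharZero k] (h : Hyp X) : Engine h.var h.gen :=
  engine h (surf_mov h) (fldP h) (chainB h) (endP h)

end Pool.Agent.H32.TZ

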