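import Pool.Agent.H39.TQ.Itf

/-!
# [H32 TZ Def] THEOREM Z (MP_e49dc9_ag), the engine: definitions (text: think 1075)

`K` is the function field, `R = K ⊗[k] K`, the COEFFICIENT field is on the left (library H24/TU), `dI k K` is the ideal of the
diagonal, the generic point `x`.

* `Srf L κ`: there is a surface `Q` (a prime of `R` with `trdeg (κ(Q) / K) = 2`) which contains all `G ∈ L ⊗ K` of order at
  least `κ + 1` at `x`.
* `Mov D u`: for every `m` with `(m + 1) u < h0 D 1` there are infinitely many prime divisors along which a section of `D`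
  vanishes to order at least `m + 1`.
* `GrwL F L u`: `dim_F (F L) ≤ u`.
-/

set_option autoImplicit false

open scoped TensorProduct

namespace Pool.Agent.H32.TZ

open Pool.Agent.H54.RV Pool.Agent.H83.TU Pool.Agent.H24.TU Pool.Agent.H24.TV

section alg

variable {k K : Type} [Field k] [Field K] [Algebra k K]

/-- a surface through the generic point which contains all `G ∈ L ⊗ K` of order at least `κ + 1` there -/
def Srf (L : Submodule k K) (κ : ℕ) : Prop :=
  ∃ Q : Ideal (K ⊗[k] K), Q.IsPrime ∧ Algebra.trdeg K ((K ⊗[k] K) ⧸ Q) = 2 ∧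
    ∀ G ∈ L.baseChange K, OrdGE (dI k K) (κ + 1) G → G ∈ Q

/-- `dim_F (F L) ≤ u` -/
def GrwL (F : IntermediateField k K) (L : Submodule k K) (u : ℕ) : Prop :=
  Module.finrank F (Submodule.span F (L : Set K)) ≤ u

end alg

variable {k K : Type} [Field k] [Field K] [Algebra k K] {X : Mod k K}

/-- the sections of `D` vanish to high order along infinitely many prime divisors -/
def Mov (D : Cart X) (u : ℕ) : Prop := ∀ m : ℕ, (m + 1) * u < h0 D 1 → ¬ StarT D m

end Pool.Agent.H32.TZ
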