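import Pool.Agent.H32.TZ.Itf2
import Pool.Agent.H24.TK.Fin
import Pool.Agent.H24.TU.RFG
import Pool.Agent.H24.TV.FinV
import Pool.Agent.H83.TU.RC

/-!
# [H32 TZ ENG] THEOREM Z (MP_e49dc9_ag): the engine

`engine`: `SurfMov X`, `FldP X`, `ChainB k K`, `EndP hX hg` imply `Engine hX hg`.

`E n := D n * D (n + 1)`.  If there are no surfaces then `FldP` gives a field `F n` for `E n`; `F n` and `F (n + 1)` are both good for
`D (n + 1)`, so they are equal by `ChainB`; `EndP` for `D n` and this field.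
-/

set_option autoImplicit false

open scoped TensorProduct

namespace Pool.Agent.H32.TZ

open Pool.Agent.H54.RV Pool.Agent.H83.TU Pool.Agent.H24.TU Pool.Agent.H24.TV Pool.Agent.H39.TQ Pool.Agent.H41.ZC

variable {k K : Type} [Field k] [Field K] [Algebra k K] {X : Mod k K}

theorem sec_mul {A B : Cart X} {f s : K} (hf : f ∈ secL A 1) (hs : s ∈ secL B 1) : f * s ∈ secL (A * B) 1 := by
  intro x
  have h1 : f * A.eq x ^ 1 ∈ X.O x := hf x
  have h2 : s * B.eq x ^ 1 ∈ X.O x := hs x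
  have h3 : f * s * (A * B).eq x ^ 1 = f * A.eq x ^ 1 * (s * B.eq x ^ 1) := by
    rw [mul_eq]
    ring
  rw [h3]
  exact (X.O x).mul_mem h1 h2

theorem exists_sec {B : Cart X} (hB : 0 < h0 B 1) : ∃ s ∈ secL B 1, s ≠ 0 := by
  by_contra hcon
  push Not at hcon
  have h3 : secL B 1 = ⊥ := by
    rw [Submodule.eq_bot_iff]
    exact hcon
  have h4 : h0 B 1 = 0 := by
    unfold h0
    rw [h3]
    exact finrank_bot k K
  omega

theorem h0_mul_le (hfd : ∀ W : Cart X, FiniteDimensional k (secL W 1)) {A B : Cart X} (hB : 0 < h0 B 1) :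
    h0 A 1 ≤ h0 (A * B) 1 := by
  obtain ⟨s, hs, hs0⟩ := exists_sec hB
  have := hfd A
  have := hfd (A * B)
  unfold h0
  let φ : secL A 1 →ₗ[k] secL (A * B) 1 :=
    { toFun := fun f => ⟨f.1 * s, sec_mul f.2 hs⟩
      map_add' := fun f g => Subtype.ext (add_mul _ _ _)
      map_smul' := fun c f => Subtype.ext (smul_mul_assoc _ _ _) }
  refine LinearMap.finrank_le_finrank_of_injective (f := φ) fun f g hfg => ?_
  have h3 : f.1 * s = g.1 * s := congrArg Subtype.val hfg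
  exact Subtype.ext (mul_right_cancel₀ hs0 h3)

theorem span_fd (F : IntermediateField k K) (L : Submodule k K) (hL : FiniteDimensional k L) :
    FiniteDimensional F (Submodule.span F (L : Set K)) := by
  obtain ⟨s, hs⟩ := (Module.Finite.iff_fg.1 hL : L.FG)
  have h5 : Submodule.span F (L : Set K) = Submodule.span F (s : Set K) := by
    rw [← hs]
    exact Submodule.span_span_of_tower k F (s : Set K)
  rw [h5]
  exact FiniteDimensional.span_of_finite _ s.finite_toSet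

/-- `dim_F (F L(A)) ≤ dim_F (F L(A B))` if `B` has a nonzero section -/
theorem grwL_mul (hfd : ∀ W : Cart X, FiniteDimensional k (secL W 1)) {F : IntermediateField k K} {A B : Cart X} {u : ℕ}
    (hB : 0 < h0 B 1) (hg : GrwL F (secL (A * B) 1) u) : GrwL F (secL A 1) u := by
  obtain ⟨s, hs, hs0⟩ := exists_sec hB
  refine le_trans ?_ hg
  have h1 := span_fd F (secL (A * B) 1) (hfd _)
  have hmem : ∀ f ∈ Submodule.span F (secL A 1 : Set K), f * s ∈ Submodule.span F (secL (A * B) 1 : Set K) := by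
    intro f hf
    induction hf using Submodule.span_induction with
    | mem f hf => exact Submodule.subset_span (sec_mul hf hs)
    | zero => rw [zero_mul]; exact Submodule.zero_mem _
    | add x y _ _ h1 h2 => rw [add_mul]; exact Submodule.add_mem _ h1 h2
    | smul c x _ h1 => rw [smul_mul_assoc]; exact Submodule.smul_mem _ c h1
  let φ : Submodule.span F (secL A 1 : Set K) →ₗ[F] Submodule.span F (secL (A * B) 1 : Set K) :=
    { toFun := fun f => ⟨f.1 * s, hmem f.1 f.2⟩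
      map_add' := fun f g => Subtype.ext (add_mul _ _ _)
      map_smul' := fun c f => Subtype.ext (smul_mul_assoc _ _ _) }
  refine LinearMap.finrank_le_finrank_of_injective (f := φ) ?_
  intro f g hfg
  have h3 : f.1 * s = g.1 * s := congrArg Subtype.val hfg
  exact Subtype.ext (mul_right_cancel₀ hs0 h3)

theorem vol_nn (D : Cart X) : 0 ≤ vol D := by
  unfold vol
  refine Real.sInf_nonneg fun a ha => ?_
  obtain ⟨n, hn⟩ := (show ∀ᶠ n : ℕ in Filter.atTop, (h0 D n : ℝ) / (n : ℝ) ^ 3 ≤ a from ha).exists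
  exact le_trans (by positivity) hn

theorem exists_e {th : ℝ} (hth : 0 < th) : ∃ e : ℕ, 1 ≤ e ∧ (1 + 3 / (e : ℝ)) ^ 3 ≤ 1 + th := by
  obtain ⟨n, hn⟩ := exists_nat_gt (max 3 (21 / th))
  have h1 : 3 < (n : ℝ) := (le_max_left _ _).trans_lt hn
  have h2 : 21 / th < (n : ℝ) := (le_max_right _ _).trans_lt hn
  have hn0 : 0 < (n : ℝ) := by linarith
  rw [div_lt_iff₀ hth] at h2
  refine ⟨n, by
    have : (1 : ℝ) ≤ n := by linarith
    exact_mod_cast this, ?_⟩
  obtain ⟨t, ht⟩ : ∃ t : ℝ, t = 3 / (n : ℝ) := ⟨_, rfl⟩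
  have ht0 : 0 ≤ t := by rw [ht]; positivity
  have ht1 : t ≤ 1 := by
    rw [ht, div_le_one hn0]
    linarith
  have ht2 : 7 * t ≤ th := by
    rw [ht, ← mul_div_assoc, div_le_iff₀ hn0]
    linarith
  rw [← ht]
  have h3 : t ^ 2 ≤ t := by nlinarith
  have h4 : t ^ 3 ≤ t := by
    have : t ^ 3 = t ^ 2 * t := by ring
    nlinarith
  nlinarith

theorem smV_mono {t t' : ℝ} (h : t ≤ t') {E : Cart X} (hE : SmV t' E) : SmV t E := by
  obtain ⟨q, A₀, h1, h2, h3⟩ := hE
  exact ⟨q, A₀, h1, h2, (mul_le_mul_of_nonneg_right h (vol_nn _)).trans_lt h3⟩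

/-- **the engine** -/
theorem engine [IsAlgClosed k] [CharZero k] (h : Hyp X) (hS : SurfMov X) (hF1 : FldP X) (hCh : ChainB k K)
    (hEnd : EndP h.var h.gen) : Engine h.var h.gen := by
  intro D th hth hD hv
  obtain ⟨A, hA⟩ := h.amp
  have hfd : ∀ W : Cart X, FiniteDimensional k (secL W 1) := Pool.Agent.H24.TK.fd h.var h.gen hA
  have hUF := Pool.Agent.H83.TU.uf_all h.var
  by_contra hcon
  push Not at hcon
  obtain ⟨hc1, hc2⟩ := hcon
  -- no surfaces
  have hns : ∀ κ : ℕ, ∀ᶠ n in Filter.atTop, ¬ TZ.Srf (secL (D n) 1) κ ∧ ¬ TZ.Srf (secL (D n * D (n + 1)) 1) κ := by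
    intro κ
    have h1 := hc1 ((κ + 3).choose 3)
    filter_upwards [h1] with n hn
    exact ⟨fun h2 => hn.1 (hS _ κ _ le_rfl h2), fun h2 => hn.2 (hS _ κ _ le_rfl h2)⟩
  obtain ⟨e, he, hle⟩ := exists_e hth
  obtain ⟨u, hu⟩ : ∃ u, u = (e + 2).choose 3 := ⟨_, rfl⟩
  have hpos : ∀ᶠ n in Filter.atTop, 0 < h0 (D n) 1 := hD.eventually_gt_atTop 0
  have hsh : ∀ {p : ℕ → Prop}, (∀ᶠ n in Filter.atTop, p n) → ∀ᶠ n in Filter.atTop, p (n + 1) := by
    intro p hp
    exact (Filter.tendsto_add_atTop_nat 1).eventually hp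
  -- everything which holds for large n
  obtain ⟨N, hN⟩ := Filter.eventually_atTop.1 (hv.and ((hns (2 * e)).and ((hsh (hns (u + u))).and
    ((hD.eventually_gt_atTop ((2 * e + 2).choose 3)).and ((hsh (hD.eventually_gt_atTop ((u + u + 3).choose 3))).and
      (hpos.and (hsh hpos)))))))
  have hfield : ∀ n ≥ N, ∃ F : IntermediateField k K, Algebra.trdeg F K = 1 ∧ IsPF F ∧ Clo F ∧
      GrwL F (secL (D n * D (n + 1)) 1) u := by
    intro n hn
    obtain ⟨h1, h2, -, h4, -, -, h7⟩ := hN n hn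
    rcases hF1 (D n * D (n + 1)) e he (h4.trans_le (h0_mul_le hfd h7)) (smV_mono hle h1) with h8 | h8
    · exact absurd h8 h2.2
    · rw [hu]
      exact h8
  obtain ⟨F, hF, hPF, hC, hG⟩ := hfield N le_rfl
  have hconst : ∀ n ≥ N, GrwL F (secL (D n * D (n + 1)) 1) u := by
    intro n hn
    induction n, hn using Nat.le_induction with
    | base => exact hG
    | succ n hn ih =>
      obtain ⟨F', hF', -, hC', hG'⟩ := hfield (n + 1) (by omega)
      obtain ⟨-, -, h3, -, h5, h6, h7⟩ := hN n hn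
      obtain ⟨-, -, -, -, -, -, h7'⟩ := hN (n + 1) (by omega)
      by_cases hne : F = F'
      · rw [hne]
        exact hG'
      · exfalso
        refine h3.1 (hCh _ F F' u u (hfd _) hF hF' hC hC' hne ?_ (grwL_mul hfd h7' hG') h5)
        rw [mul_comm] at ih
        exact grwL_mul hfd h6 ih
  obtain ⟨M, hM⟩ := hc2 F hF hC
  obtain ⟨κ₀, hκ⟩ := exists_nat_gt (max 1 (2 * M))
  have hκ1 : 1 < (κ₀ : ℝ) := (le_max_left _ _).trans_lt hκ
  have hκ2 : 2 * M < (κ₀ : ℝ) := (le_max_right _ _).trans_lt hκ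
  have hκM : M ≤ (κ₀ : ℝ) ^ 2 / 2 := by nlinarith
  have hev : ∀ᶠ n in Filter.atTop, ∀ A : Cart X, Ample A → ∀ a b : ℕ, 1 ≤ a → 1 ≤ b →
      M * a ^ 2 * b * RF h.var h.gen F A ≤ vol (D n ^ a * A ^ b) := by
    filter_upwards [hns (κ₀ + u), hD.eventually_gt_atTop ((κ₀ + u + 3).choose 3), Filter.eventually_ge_atTop N]
      with n h1 h2 h3 A hA a b ha hb
    obtain ⟨-, -, -, -, -, h6, h7⟩ := hN n h3
    rcases hEnd (D n) F u κ₀ h6 hF hPF hC (grwL_mul hfd h7 (hconst n h3)) h2 with h8 | h8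
    · exact absurd h8 h1.1
    · refine le_trans ?_ (h8 A hA a b ha hb)
      have h9 : (0 : ℝ) < RF h.var h.gen F A := by
        exact_mod_cast rf_ample h.var h.gen hUF F hF A hA
      have h10 : (0 : ℝ) ≤ (a : ℝ) ^ 2 * b * RF h.var h.gen F A := by positivity
      calc M * a ^ 2 * b * RF h.var h.gen F A = M * ((a : ℝ) ^ 2 * b * RF h.var h.gen F A) := by ring
        _ ≤ (κ₀ : ℝ) ^ 2 / 2 * ((a : ℝ) ^ 2 * b * RF h.var h.gen F A) := mul_le_mul_of_nonneg_right hκM h10
        _ = _ := by ring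
  obtain ⟨n, hn1, hn2⟩ := (hM.and_eventually hev).exists
  obtain ⟨A', hA', a, b, ha, hb, hlt⟩ := hn1
  exact absurd (hn2 A' hA' a b ha hb) (not_le.2 hlt)

end Pool.Agent.H32.TZ
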