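import Pool.Agent.H24.TU.Trans

/-!
# [H32 TZ TRA] THEOREM Z (MP_e49dc9_ag), TR: transitivity or a smaller prime

`trans_or`: `x y : K →ₐ[k] κ`, `P = ptI x y ≤ dI k K` with `trdeg_K (R / P) = 1`; `L` a finite dimensional subspace of `K`; every `f ∈ L.baseChange K` with
`OrdGE (dI k K) j f` has `OrdGE P e f`; every `f ∈ L.baseChange K` with `OrdGE (dI k K) e f` is in `P`.  THEN `P.map (chg K x) ≤ P.map (chg K y)`, or there is a
prime `W < P` which contains all `f ∈ L.baseChange K` with `OrdGE (dI k K) j f`.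

PROOF: exactly as `transitivity` in H24/TU/Trans.lean (read it; copy the private lemmas `tr_smul`, `tr_chg`, `tr_comap_x`, `tr_comap_y`).  Suppose there is no such
`W`.  Let `Q` be a minimal prime of `P.map (chg K y)` with `Q ≤ ptI (AlgHom.id k κ) y =: I`; `Q.comap (chg K y) = P` (`comap_minimal y hP hQ`).  Put
`W := Q.comap (chg K x)`, a prime, `W ≤ I.comap (chg K x) = P` (`tr_comap_x`).  Every `g ∈ L.baseChange K` with `OrdGE (dI k K) j g` is in `W`: `OrdGE P e g` by
hypothesis, so `OrdGE I e (chg K x g)` (`ordGE_comap`, `tr_comap_x`); `chg K x g ∈ L.baseChange κ` (`tr_chg`); by `span_ord y L` it is in the `κ`-span of the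
`chg K y f'` with `f' ∈ L.baseChange K`, `OrdGE (dI k K) e f'`; such `f'` are in `P = Q.comap (chg K y)` by hypothesis, so `chg K y f' ∈ Q`; so `chg K x g ∈ Q` (`tr_smul`).
As there is no such `W < P`, we have `W = P`.  The rest of the proof of `transitivity` (the last ten lines) is unchanged.
-/

set_option autoImplicit false

open scoped TensorProduct

namespace Pool.Agent.H32.TZ

open Pool.Agent.H24.TU

variable {k K κ : Type} [Field k] [Field K] [Field κ] [Algebra k K] [Algebra k κ]

private theorem tr_smul {X : Type} [Field X] [Algebra k X] (c : X) (v : X ⊗[k] K) :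
    c • v = (c ⊗ₜ[k] (1 : K)) * v := by
  rw [Algebra.smul_def, Algebra.TensorProduct.algebraMap_apply]
  rfl

private theorem tr_chg {X X' : Type} [Field X] [Algebra k X] [Field X'] [Algebra k X']
    (φ : X →ₐ[k] X') (L' : Submodule k K) {u : X ⊗[k] K} (hu : u ∈ L'.baseChange X) :
    chg K φ u ∈ L'.baseChange X' := by
  rw [Submodule.baseChange_eq_span] at hu
  induction hu using Submodule.span_induction with
  | mem v hv =>
    obtain ⟨f, hf, rfl⟩ := hv
    show chg K φ ((1 : X) ⊗ₜ[k] f) ∈ _
    rw [chg_tmul]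
    exact Submodule.tmul_mem_baseChange_of_mem _ hf
  | zero => rw [map_zero]; exact Submodule.zero_mem _
  | add a b _ _ ha hb => rw [map_add]; exact Submodule.add_mem _ ha hb
  | smul c v _ hv =>
    have h : chg K φ (c • v) = φ c • chg K φ v := by
      rw [tr_smul, map_mul, chg_tmul, tr_smul]
    rw [h]
    exact Submodule.smul_mem _ _ hv

private theorem tr_comap_x (x y : K →ₐ[k] κ) :
    (ptI (AlgHom.id k κ) y).comap (chg K x) = ptI x y := by
  have h : ∀ u : K ⊗[k] K, pt (AlgHom.id k κ) y (chg K x u) = pt x y u := by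
    intro u
    induction u using TensorProduct.induction_on with
    | zero => simp
    | add a b ha hb => simp only [map_add, ha, hb]
    | tmul a f => simp
  ext u
  rw [Ideal.mem_comap, mem_ptI, mem_ptI, h]

theorem trans_or [CharZero k] [Algebra.EssFiniteType k K] (L : Submodule k K) (hL : FiniteDimensional k L)
    (x y : K →ₐ[k] κ) (hPI : ptI x y ≤ dI k K) (htr : Algebra.trdeg K ((K ⊗[k] K) ⧸ ptI x y) = 1) {j e : ℕ}
    (hj : ∀ f ∈ L.baseChange K, OrdGE (dI k K) j f → OrdGE (ptI x y) e f)
    (he : ∀ f ∈ L.baseChange K, OrdGE (dI k K) e f → f ∈ ptI x y) :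
    (ptI x y).map (chg K x) ≤ (ptI x y).map (chg K y) ∨
      ∃ W : Ideal (K ⊗[k] K), W.IsPrime ∧ W < ptI x y ∧ ∀ f ∈ L.baseChange K, OrdGE (dI k K) j f → f ∈ W := by
  have hP : (ptI x y).IsPrime := inferInstance
  by_cases hW : ∃ W : Ideal (K ⊗[k] K), W.IsPrime ∧ W < ptI x y ∧
      ∀ f ∈ L.baseChange K, OrdGE (dI k K) j f → f ∈ W
  · exact Or.inr hW
  left
  have key : ∀ Q ∈ ((ptI x y).map (chg K y)).minimalPrimes, Q ≤ ptI (AlgHom.id k κ) y →
      Q.comap (chg K x) = ptI x y := by
    intro Q hQ hQI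
    have hQp : Q.IsPrime := hQ.1.1
    have hc : Q.comap (chg K y) = ptI x y := comap_minimal y hP hQ
    have hle : Q.comap (chg K x) ≤ ptI x y := by
      rw [← tr_comap_x x y]
      exact Ideal.comap_mono hQI
    by_contra hne
    have hlt : Q.comap (chg K x) < ptI x y := lt_of_le_of_ne hle hne
    refine hW ⟨Q.comap (chg K x), Ideal.IsPrime.comap _, hlt, fun g hg hgj => ?_⟩
    have h1 : OrdGE (ptI (AlgHom.id k κ) y) e (chg K x g) := by
      rw [← ordGE_comap, tr_comap_x]
      exact hj g hg hgj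
    have h2 := span_ord y L hL (tr_chg x L hg) h1
    show chg K x g ∈ Q
    generalize chg K x g = w at h2
    induction h2 using Submodule.span_induction with
    | mem v hv =>
      obtain ⟨f', ⟨hf1, hf2⟩, rfl⟩ := hv
      have h3 := he f' hf1 hf2
      rw [← hc] at h3
      exact h3
    | zero => exact Q.zero_mem
    | add a b _ _ ha hb => exact Q.add_mem ha hb
    | smul c v _ hv =>
      rw [tr_smul]
      exact Q.mul_mem_left _ hv
  rw [Ideal.map_le_iff_le_comap]
  intro p hp
  rw [Ideal.mem_comap]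
  obtain ⟨s, hs, n, hn⟩ := exists_mul_pow_mem (ptI (AlgHom.id k κ) y) inferInstance
    ((ptI x y).map (chg K y)) (chg K x p) (by
      intro Q hQ hQI
      have h1 : p ∈ Q.comap (chg K x) := by rw [key Q hQ hQI]; exact hp
      exact h1)
  exact map_isRadical y hP ⟨n, saturated y hP hPI hs hn⟩

end Pool.Agent.H32.TZ
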