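import Pool.Agent.H32.TZ.Def
import Pool.Agent.H32.TZ.Jet
import Pool.Agent.H32.TZ.Tra
import Pool.Agent.H24.TU.Fld
import Pool.Agent.H24.TU.Count
import Pool.Agent.H24.TU.Cmp
import Pool.Agent.H24.TU.Coo
import Pool.Agent.H24.TU.TrD
import Pool.Agent.H83.TQ.Clo
import Pool.Agent.H41.TQ.Dom

/-!
# [H32 TZ LEV] THEOREM Z (MP_e49dc9_ag), G1 and TR: the theorem for level 1

`lev1`: `S` a graded system with `dim L_n ≤ w n ^ 3` for large `n` and `(1 + 3 / e) ^ 3 w < dim L_1`: there is a surface which contains all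
`G ∈ L_1 ⊗ K` of order at least `2 e + 1` at the generic point, or a field `F`, algebraically closed in `K`, with `trdeg_F K = 1` and
`dim_F F L_1 ≤ (e + 2).choose 3`.
-/

set_option autoImplicit false

open scoped TensorProduct

namespace Pool.Agent.H32.TZ

open Pool.Agent.H24.TU Pool.Agent.H39.TQ

variable {k K : Type} [Field k] [CharZero k] [IsAlgClosed k] [Field K] [Algebra k K]

private theorem lev_trdeg_le {n : ℕ} {c : Cardinal} (h : c < ((n + 1 : ℕ) : Cardinal)) : c ≤ n := by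
  obtain ⟨m, rfl⟩ := Cardinal.lt_aleph0.1 (h.trans (Cardinal.natCast_lt_aleph0))
  have h1 : m < n + 1 := by exact_mod_cast h
  exact_mod_cast Nat.lt_succ_iff.1 h1

theorem bot_prime (C : Coord k K) : (⊥ : Ideal (K ⊗[k] K)).IsPrime := by
  have := Pool.Agent.H41.TQ.dom_tensor C
  exact Ideal.isPrime_bot

/-- a nonzero prime has transcendence degree at most two -/
theorem trdeg_ne_bot [Algebra.EssFiniteType k K] (htr : Algebra.trdeg k K = 3) {Q : Ideal (K ⊗[k] K)} (hQ : Q.IsPrime)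
    (hne : Q ≠ ⊥) : Algebra.trdeg K ((K ⊗[k] K) ⧸ Q) ≤ 2 := by
  obtain ⟨C⟩ := exists_coord (k := k) (K := K) htr
  have h1 := trdeg_quot_lt (F := K) (bot_prime C) hQ (bot_lt_iff_ne_bot.2 hne) (trdeg_quot_fin (bot_prime C))
  have h2 := Pool.Agent.H41.TQ.trdeg_quot_le htr _ (bot_prime C)
  exact lev_trdeg_le (n := 2) (h1.trans_le (by exact_mod_cast h2))

theorem lev1 [Algebra.EssFiniteType k K] (htr : Algebra.trdeg k K = 3) (S : GSys k K) {e : ℕ} (he : 1 ≤ e) (w : ℝ)
    (hw : ∀ᶠ n : ℕ in Filter.atTop, (Module.finrank k (S.L n) : ℝ) ≤ w * (n : ℝ) ^ 3)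
    (h1 : (1 + 3 / (e : ℝ)) ^ 3 * w < (Module.finrank k (S.L 1) : ℝ))
    (h2 : (2 * e + 2).choose 3 < Module.finrank k (S.L 1)) :
    Srf (S.L 1) (2 * e) ∨ ∃ F : IntermediateField k K, Algebra.trdeg F K = 1 ∧ Clo F ∧
      GrwL F (S.L 1) ((e + 2).choose 3) := by
  obtain ⟨C₀⟩ := exists_coord (k := k) (K := K) htr
  have := S.fin 1
  -- the prime P
  have hP : ∃ P : Ideal (K ⊗[k] K), P.IsPrime ∧ VIdeal S e ≤ P ∧ P ≤ dI k K ∧ P ≠ dI k K := by
    by_contra hcon
    push Not at hcon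
    obtain ⟨c, hc⟩ := all_exponents C₀ S he (fun Q hQ h3 h4 => hcon Q hQ h3 h4)
    exact absurd h1 (not_lt.2 (vol_bound C₀ S he hc w hw))
  obtain ⟨P, hP, hVP, hPI, hPne⟩ := hP
  have hVP' : ∀ f ∈ (S.L 1).baseChange K, OrdGE (dI k K) e f → f ∈ P :=
    fun f hf hf' => hVP (Ideal.subset_span ⟨hf, hf'⟩)
  -- a prime which contains all elements of high order is not zero
  have hbot : ∀ (j : ℕ) (Q : Ideal (K ⊗[k] K)), j ≤ 2 * e → (∀ f ∈ (S.L 1).baseChange K, OrdGE (dI k K) j f → f ∈ Q) →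
      Q ≠ ⊥ := by
    rintro j Q hj hQ rfl
    have h3 := finrank_le_of_ord C₀ (S.L 1) (m := j) (fun G hG hG' => by
      have := hQ G hG hG'
      rwa [Ideal.mem_bot] at this)
    have h4 : (j + 2).choose 3 ≤ (2 * e + 2).choose 3 := Nat.choose_le_choose 3 (by omega)
    omega
  have hle2 : Algebra.trdeg K ((K ⊗[k] K) ⧸ P) ≤ 2 := trdeg_ne_bot htr hP (hbot e P (by omega) hVP')
  have hge1 : 1 ≤ Algebra.trdeg K ((K ⊗[k] K) ⧸ P) := by
    have h4 : Algebra.trdeg K ((K ⊗[k] K) ⧸ dI k K) < Algebra.trdeg K ((K ⊗[k] K) ⧸ P) :=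
      trdeg_quot_lt hP inferInstance (lt_of_le_of_ne hPI hPne) (trdeg_quot_fin hP)
    rw [trdeg_dI] at h4
    exact Cardinal.one_le_iff_pos.2 h4
  -- a surface
  by_cases h22 : 2 ≤ Algebra.trdeg K ((K ⊗[k] K) ⧸ P)
  · left
    exact ⟨P, hP, le_antisymm hle2 h22, fun G hG hG' => hVP' G hG (OrdGE_mono (by omega) hG')⟩
  have htrP : Algebra.trdeg K ((K ⊗[k] K) ⧸ P) = 1 := by
    refine le_antisymm (lev_trdeg_le (n := 1) ?_) hge1
    exact_mod_cast not_le.1 h22
  -- the two maps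
  let x : K →ₐ[k] P.ResidueField :=
    (IsScalarTower.toAlgHom k (K ⊗[k] K) P.ResidueField).comp
      (Algebra.TensorProduct.includeLeft : K →ₐ[k] K ⊗[k] K)
  let y : K →ₐ[k] P.ResidueField :=
    (IsScalarTower.toAlgHom k (K ⊗[k] K) P.ResidueField).comp
      (Algebra.TensorProduct.includeRight : K →ₐ[k] K ⊗[k] K)
  have hxy : ∀ q : K ⊗[k] K, pt x y q = algebraMap (K ⊗[k] K) P.ResidueField q := by
    intro q
    induction q using TensorProduct.induction_on with
    | zero => simp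
    | add a b ha hb => rw [map_add, map_add, ha, hb]
    | tmul a b =>
      rw [pt_tmul]
      show algebraMap (K ⊗[k] K) P.ResidueField (a ⊗ₜ[k] 1) *
        algebraMap (K ⊗[k] K) P.ResidueField (1 ⊗ₜ[k] b) = _
      rw [← map_mul, Algebra.TensorProduct.tmul_mul_tmul, mul_one, one_mul]
  have hPxy : ptI x y = P := by
    ext q
    rw [mem_ptI, hxy, Ideal.algebraMap_residueField_eq_zero]
  have hPI' : ptI x y ≤ dI k K := by rw [hPxy]; exact hPI
  rcases trans_or (S.L 1) (S.fin 1) x y hPI' (by rw [hPxy]; exact htrP) (j := 2 * e - 1) (e := e)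
    (fun f hf hf' => by
      rw [hPxy]
      exact OrdGE_mono (by omega) (ord_compare S hP hVP hf hf'))
    (fun f hf hf' => by rw [hPxy]; exact hVP' f hf hf') with hle | ⟨W, hW, hlt, hWm⟩
  · -- the field
    right
    have htrF : Algebra.trdeg (eqF x y) K = 1 := trdeg_eqF x y hle hPI' (by rw [hPxy]; exact htrP)
    have hfd : FiniteDimensional (eqF x y) (Submodule.span (eqF x y) (S.L 1 : Set K)) := by
      obtain ⟨s, hs⟩ := Submodule.fg_iff_finiteDimensional (S.L 1) |>.2 (S.fin 1)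
      have h3 : Submodule.span (eqF x y) (S.L 1 : Set K) = Submodule.span (eqF x y) (s : Set K) := by
        apply le_antisymm
        · rw [Submodule.span_le, ← hs]
          exact Submodule.span_subset_span k (eqF x y) (s : Set K)
        · refine Submodule.span_mono ?_
          rw [← hs]
          exact Submodule.subset_span
      rw [h3]
      exact FiniteDimensional.span_finset (eqF x y) s
    refine ⟨Pool.Agent.H83.TQ.clo (eqF x y), by rw [Pool.Agent.H83.TQ.clo_trdeg, htrF],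
      Pool.Agent.H83.TQ.clo_closed, ?_⟩
    unfold GrwL
    refine (Pool.Agent.H83.TQ.finrank_mono_field (Pool.Agent.H83.TQ.le_clo _) _ hfd).trans ?_
    refine (finrank_span_le S x y hle hPI' 1).trans ?_
    rw [hPxy]
    exact finrank_image_le C₀ (S.L 1) P hVP'
  · -- a surface
    left
    rw [hPxy] at hlt
    have h3 := two_le_trdeg hP hW hlt htrP
    have h4 := trdeg_ne_bot htr hW (hbot (2 * e - 1) W (by omega) hWm)
    exact ⟨W, hW, le_antisymm h4 h3, fun G hG hG' => hWm G hG (OrdGE_mono (by omega) hG')⟩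

end Pool.Agent.H32.TZ
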