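import Pool.Agent.H32.TZ.Def
import Pool.Agent.H24.TU.RFG
import Pool.Agent.H24.VP.Exi
import Pool.Agent.H24.VP.LE

/-!
# [H32 TZ SYS] THEOREM Z (MP_e49dc9_ag), G1: the graded system of `n E + [n / q'] A`

`E` a divisor with a nonzero section, `A₀` ample, `q ≥ 1`.
`exists_sys`: there is a graded system `S : GSys k K` (H24/TU/Def) with `S.L 1 = secL E 1` and, for every `w > vol (E ^ q * A₀)`, `dim S.L n ≤ (w / q ^ 3) n ^ 3` for
all large `n`.

PROOF.  `A₀` is ample: there are `r ≥ 2` and a nonzero section `s` of `A₀ ^ r` (`Sec (A₀ ^ r) 1 s`; take a power of a section if necessary).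
`A₁ := A₀ ^ r * prin X s` is effective (`1 ∈ secL A₁ 1`) and linearly equivalent to `A₀ ^ r` (`LEq.prin`, H24/VP/LE), ample.  Let `N := q * r ≥ 2`,
`S.L n := secL (E ^ n * A₁ ^ (n / N)) 1` (natural number division).  `S.L 1 = secL (E ^ 1 * A₁ ^ 0) 1 = secL E 1` as `1 / N = 0`.
`one_mem`: `1 ∈ O x`.  `mul_mem`: `a * b * (E.eq x ^ (m + n) * A₁.eq x ^ ((m + n) / N))`; `(m + n) / N = m / N + n / N + d` with `d ∈ {0, 1}` (a natural number), and
`A₁.eq x ^ d ∈ O x`.  `fin`: `Pool.Agent.H24.TK.fd` (finite dimensionality of `secL W n`, all `W`; see how `main_q` in H39/TQ/Asm uses it).  `ne_bot`: `0 < h0 E 1`.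
`frac`: `t ≠ 0` a section of `E`; for `f ∈ K`: `frac_sec` (H24/TU/RFG; `UF` from the library as in the callers of `frac_sec`) for the ample `A₁`: `f * b = a` with
`a, b ∈ secL A₁ m`, `b ≠ 0`; then `a * t ^ (N m)` and `b * t ^ (N m)` are in `S.L (N m)` (`N m / N = m`).
GROWTH.  For `n` put `m := n / N + 1`, so `n < N m` and `m ≤ n / N + 1`.  Multiplication by `t ^ (N m - n)` maps `S.L n` injectively into
`secL (E ^ (N m) * A₁ ^ m) 1` (`A₁` is effective), which has the dimension of `secL ((E ^ q * A₀) ^ (r m)) 1 = secL (E ^ q * A₀) (r m)` (`LEq.h0`).  So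
`dim S.L n ≤ h0 (E ^ q * A₀) (r m)`, and for large `n` this is at most `w' (r m) ^ 3` for a fixed `w'` with `vol (E ^ q * A₀) < w' < w`
(`Filter.eventually_lt_of_limsup_lt`; the boundedness of `h0 W n / n ^ 3` for every divisor `W`: `W` is at most an ample divisor; see H24/TV, H24/VP, H83/TU for the
lemma which is used for `vol`), `r m ≤ n / q + r` (real division), and `w' (n / q + r) ^ 3 ≤ (w / q ^ 3) n ^ 3` for large `n`
(`w' ≥ 0` without loss of generality: `vol ≥ 0`).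
-/

set_option autoImplicit false

namespace Pool.Agent.H32.TZ

open Pool.Agent.H54.RV Pool.Agent.H83.TU Pool.Agent.H24.TU Pool.Agent.H24.VP

variable {k K : Type} [Field k] [Field K] [Algebra k K] {X : Mod k K}

private theorem sys_ample {D : Cart X} (hD : Ample D) (f : K) (hf : f ≠ 0) :
    Ample (D * prin X f hf) := by
  intro x
  obtain ⟨n, hn, s, hs, hx, ha⟩ := hD x
  have hfn : f ^ n ≠ 0 := pow_ne_zero n hf
  have key : ∀ y, s * (f ^ n)⁻¹ * (D * prin X f hf).eq y ^ n = s * D.eq y ^ n := by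
    intro y
    rw [mul_eq]
    have e : (prin X f hf).eq y = f := rfl
    rw [e, mul_pow]
    field_simp
  have hnz : nz (D * prin X f hf) n (s * (f ^ n)⁻¹) = nz D n s := by
    ext y
    show Un _ _ ↔ Un _ _
    rw [key]
  refine ⟨n, hn, s * (f ^ n)⁻¹, fun y => ?_, ?_, ?_⟩
  · rw [key]
    exact hs y
  · rw [hnz]
    exact hx
  · rw [hnz]
    exact ha

private theorem sys_bdd (hG : GF X) (D : Cart X) :
    Filter.IsBoundedUnder (· ≤ ·) Filter.atTop (fun n : ℕ => (h0 D n : ℝ) / (n : ℝ) ^ 3) := by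
  obtain ⟨C, hC⟩ := hG.2 D
  refine Filter.isBoundedUnder_of_eventually_le (a := (C : ℝ)) ?_
  filter_upwards [Filter.eventually_ge_atTop 1] with n hn
  have hn0 : (0 : ℝ) < n := by exact_mod_cast hn
  rw [div_le_iff₀ (by positivity)]
  exact_mod_cast hC n hn

private theorem sys_vol_nonneg (hG : GF X) (D : Cart X) : 0 ≤ vol D := by
  unfold vol
  exact Filter.le_limsup_of_frequently_le (Filter.Eventually.frequently
    (Filter.Eventually.of_forall fun n => by positivity)) (sys_bdd hG D)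

private theorem sys_ev (hG : GF X) (D : Cart X) (w : ℝ) (hw : vol D < w) :
    ∃ n₁ : ℕ, ∀ n ≥ n₁, (h0 D n : ℝ) ≤ w * (n : ℝ) ^ 3 := by
  have h1 := Filter.eventually_lt_of_limsup_lt hw (sys_bdd hG D)
  obtain ⟨n₁, hn₁⟩ := Filter.eventually_atTop.1 (h1.and (Filter.eventually_ge_atTop 1))
  refine ⟨n₁, fun n hn => ?_⟩
  obtain ⟨h2, hn1⟩ := hn₁ n hn
  have hn' : (0 : ℝ) < (n : ℝ) ^ 3 := by
    have : (0 : ℝ) < n := by exact_mod_cast hn1
    positivity
  rw [div_lt_iff₀ hn'] at h2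
  exact h2.le

private theorem sys_lim {w' w : ℝ} (h : w' < w) (N : ℕ) :
    ∃ n₂ : ℕ, ∀ n ≥ n₂, w' * ((n : ℝ) + N) ^ 3 ≤ w * (n : ℝ) ^ 3 := by
  have h1 : Filter.Tendsto (fun n : ℕ => w' * (1 + (N : ℝ) / (n : ℝ)) ^ 3) Filter.atTop
      (nhds (w' * (1 + 0) ^ 3)) :=
    (((tendsto_const_div_atTop_nhds_zero_nat (N : ℝ)).const_add 1).pow 3).const_mul w'
  have h2 : ∀ᶠ n : ℕ in Filter.atTop, w' * (1 + (N : ℝ) / (n : ℝ)) ^ 3 < w :=
    h1.eventually (gt_mem_nhds (by linarith))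
  obtain ⟨n₂, hn₂⟩ := Filter.eventually_atTop.1 (h2.and (Filter.eventually_ge_atTop 1))
  refine ⟨n₂, fun n hn => ?_⟩
  obtain ⟨h3, h4⟩ := hn₂ n hn
  have hn0 : (0 : ℝ) < n := by exact_mod_cast h4
  have h5 : w' * ((n : ℝ) + N) ^ 3 = w' * (1 + (N : ℝ) / (n : ℝ)) ^ 3 * (n : ℝ) ^ 3 := by
    have h6 : (n : ℝ) + N = (1 + (N : ℝ) / (n : ℝ)) * n := by
      field_simp
    rw [h6, mul_pow]
    ring
  rw [h5]
  exact mul_le_mul_of_nonneg_right h3.le (by positivity)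

theorem exists_sys [IsAlgClosed k] [CharZero k] (h : Hyp X) {E A₀ : Cart X} {q : ℕ} (hq : 1 ≤ q) (hA : Ample A₀)
    (hE : 0 < h0 E 1) :
    ∃ S : GSys k K, S.L 1 = secL E 1 ∧ ∀ w : ℝ, vol (E ^ q * A₀) < w → ∃ n₀ : ℕ, ∀ n ≥ n₀,
      (Module.finrank k (S.L n) : ℝ) ≤ w / q ^ 3 * n ^ 3 := by
  have hG : GF X := Pool.Agent.H20.TU.gf h.var h.gen h.tr
  have hUF : UF X := Pool.Agent.H83.TU.uf_all h.var
  obtain ⟨g, hg⟩ := h.gen
  obtain ⟨n', hn', s, hs, hsz, -⟩ := hA g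
  have hs0 : s ≠ 0 := left_ne_zero_of_mul (And.left hsz)
  obtain ⟨r, hr⟩ : ∃ r, r = n' * 2 := ⟨_, rfl⟩
  obtain ⟨u, hu⟩ : ∃ u, u = s ^ 2 := ⟨_, rfl⟩
  have hu0 : u ≠ 0 := hu ▸ pow_ne_zero 2 hs0
  have hr2 : 2 ≤ r := by omega
  have huS : ∀ x, A₀.eq x ^ r * u ∈ X.O x := by
    intro x
    have h1 := (X.O x).pow_mem (hs x) 2
    have h2 : A₀.eq x ^ r * u = (s * A₀.eq x ^ n') ^ 2 := by
      rw [hr, hu, pow_mul]
      ring
    rw [h2]
    exact h1
  obtain ⟨A₁, hA₁⟩ : ∃ A₁, A₁ = A₀ ^ r * prin X u hu0 := ⟨_, rfl⟩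
  have hA₁eq : ∀ x, A₁.eq x = A₀.eq x ^ r * u := by
    intro x
    rw [hA₁, mul_eq, pow_eq]
    rfl
  have hA₁eff : ∀ x, A₁.eq x ∈ X.O x := fun x => by
    rw [hA₁eq]
    exact huS x
  have hA₁amp : Ample A₁ := by
    rw [hA₁]
    exact sys_ample (ample_pow A₀ r (by omega) hA) u hu0
  obtain ⟨t, htE, ht0⟩ : ∃ t ∈ secL E 1, t ≠ 0 := by
    by_contra hcon
    push Not at hcon
    have h3 : secL E 1 = ⊥ := by
      rw [Submodule.eq_bot_iff]
      exact hcon
    have h4 : h0 E 1 = 0 := by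
      unfold h0
      rw [h3]
      exact finrank_bot k K
    omega
  have htE' : ∀ x, t * E.eq x ∈ X.O x := fun x => by
    have h1 : t * E.eq x ^ 1 ∈ X.O x := htE x
    rwa [pow_one] at h1
  obtain ⟨N, hN⟩ : ∃ N, N = q * r := ⟨_, rfl⟩
  have hN2 : 2 ≤ N := by
    rw [hN]
    exact hr2.trans (Nat.le_mul_of_pos_left _ hq)
  have hN0 : 0 < N := by omega
  -- membership
  have hmem : ∀ (n : ℕ) (f : K), f ∈ secL (E ^ n * A₁ ^ (n / N)) 1 ↔
      ∀ x, f * (E.eq x ^ n * A₁.eq x ^ (n / N)) ∈ X.O x := by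
    intro n f
    show (∀ x, _) ↔ _
    refine forall_congr' fun x => ?_
    rw [mul_eq, pow_eq, pow_eq, pow_one]
  have h1N : 1 / N = 0 := Nat.div_eq_of_lt (by omega)
  have hL1 : secL (E ^ 1 * A₁ ^ (1 / N)) 1 = secL E 1 := by
    ext f
    rw [hmem]
    show _ ↔ (∀ x, _)
    refine forall_congr' fun x => ?_
    rw [h1N, pow_zero, mul_one]
  refine ⟨{
    L := fun n => secL (E ^ n * A₁ ^ (n / N)) 1
    one_mem := by
      rw [hmem]
      intro x
      rw [Nat.zero_div, pow_zero, pow_zero, mul_one, mul_one]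
      exact (X.O x).one_mem
    mul_mem := by
      intro m n a b ha hb
      rw [hmem] at ha hb ⊢
      intro x
      obtain ⟨e, he⟩ := Nat.exists_eq_add_of_le (Nat.add_div_le_add_div m n N)
      have h1 := (X.O x).mul_mem ((X.O x).mul_mem (ha x) (hb x)) ((X.O x).pow_mem (hA₁eff x) e)
      have h2 : a * b * (E.eq x ^ (m + n) * A₁.eq x ^ ((m + n) / N)) =
          a * (E.eq x ^ m * A₁.eq x ^ (m / N)) * (b * (E.eq x ^ n * A₁.eq x ^ (n / N))) *
            A₁.eq x ^ e := by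
        rw [he, pow_add, pow_add, pow_add]
        ring
      rw [h2]
      exact h1
    fin := fun n => hG.1 _ 1
    ne_bot := by
      show secL (E ^ 1 * A₁ ^ (1 / N)) 1 ≠ ⊥
      rw [hL1]
      intro hbot
      apply ht0
      rw [hbot] at htE
      exact (Submodule.mem_bot k).1 htE
    frac := by
      intro f
      obtain ⟨m, a, ha, b, hb, hb0, hf⟩ := frac_sec h hUF A₁ hA₁amp f
      have hdiv : N * m / N = m := Nat.mul_div_cancel_left m hN0
      have key : ∀ c ∈ secL A₁ m, c * t ^ (N * m) ∈ secL (E ^ (N * m) * A₁ ^ (N * m / N)) 1 := by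
        intro c hc
        rw [hmem, hdiv]
        intro x
        have h1 : c * A₁.eq x ^ m ∈ X.O x := hc x
        have h2 := (X.O x).mul_mem h1 ((X.O x).pow_mem (htE' x) (N * m))
        have h3 : c * t ^ (N * m) * (E.eq x ^ (N * m) * A₁.eq x ^ m) =
            c * A₁.eq x ^ m * (t * E.eq x) ^ (N * m) := by
          rw [mul_pow]
          ring
        rw [h3]
        exact h2
      refine ⟨N * m, a * t ^ (N * m), key a ha, b * t ^ (N * m), key b hb,
        mul_ne_zero hb0 (pow_ne_zero _ ht0), ?_⟩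
      rw [← mul_assoc, hf] }, hL1, fun w hw => ?_⟩
  -- growth
  obtain ⟨w', hw1, hw2⟩ := exists_between hw
  have hv0 : 0 ≤ vol (E ^ q * A₀) := sys_vol_nonneg hG _
  obtain ⟨n₁, hn₁⟩ := sys_ev hG (E ^ q * A₀) w' hw1
  obtain ⟨n₂, hn₂⟩ := sys_lim hw2 N
  refine ⟨max (N * n₁) n₂, fun n hn => ?_⟩
  have hnn1 : N * n₁ ≤ n := (le_max_left _ _).trans hn
  have hnn2 : n₂ ≤ n := (le_max_right _ _).trans hn
  obtain ⟨m, hm⟩ : ∃ m, m = n / N + 1 := ⟨_, rfl⟩
  have hnm : n ≤ N * m := by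
    rw [hm]
    exact (Nat.lt_mul_div_succ n hN0).le
  have hm1 : n₁ ≤ m := by
    have h1 : n₁ ≤ n / N := by
      rw [Nat.le_div_iff_mul_le hN0, mul_comm]
      exact hnn1
    omega
  have hinjmem : ∀ f ∈ secL (E ^ n * A₁ ^ (n / N)) 1,
      f * (t ^ (N * m - n) * u ^ m) ∈ secL (E ^ q * A₀) (r * m) := by
    intro f hf
    rw [hmem] at hf
    intro x
    have h1 := (X.O x).mul_mem ((X.O x).mul_mem (hf x) ((X.O x).pow_mem (htE' x) (N * m - n)))
      (hA₁eff x)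
    have h2 : f * (t ^ (N * m - n) * u ^ m) * (E ^ q * A₀).eq x ^ (r * m) =
        f * (E.eq x ^ n * A₁.eq x ^ (n / N)) * (t * E.eq x) ^ (N * m - n) * A₁.eq x := by
      have h3 : (E ^ q * A₀).eq x ^ (r * m) = E.eq x ^ (N * m) * (A₀.eq x ^ r) ^ m := by
        rw [mul_eq, pow_eq, mul_pow, ← pow_mul, ← pow_mul, hN, mul_assoc]
      have h4 : E.eq x ^ (N * m) = E.eq x ^ n * E.eq x ^ (N * m - n) := by
        rw [← pow_add]
        congr 1
        omega
      have h5 : A₁.eq x ^ (n / N) * A₁.eq x = u ^ m * (A₀.eq x ^ r) ^ m := by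
        rw [← pow_succ, ← hm, hA₁eq, mul_pow]
        ring
      rw [h3, h4, mul_pow]
      calc f * (t ^ (N * m - n) * u ^ m) *
            (E.eq x ^ n * E.eq x ^ (N * m - n) * (A₀.eq x ^ r) ^ m)
          = f * E.eq x ^ n * (t ^ (N * m - n) * E.eq x ^ (N * m - n)) *
            (u ^ m * (A₀.eq x ^ r) ^ m) := by ring
        _ = f * (E.eq x ^ n * A₁.eq x ^ (n / N)) * (t ^ (N * m - n) * E.eq x ^ (N * m - n)) *
            A₁.eq x := by
          rw [← h5]
          ring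
    show f * (t ^ (N * m - n) * u ^ m) * (E ^ q * A₀).eq x ^ (r * m) ∈ X.O x
    rw [h2]
    exact h1
  have hc0 : t ^ (N * m - n) * u ^ m ≠ 0 := mul_ne_zero (pow_ne_zero _ ht0) (pow_ne_zero _ hu0)
  have hfin : Module.Finite k (secL (E ^ q * A₀) (r * m)) := hG.1 _ _
  let φ : secL (E ^ n * A₁ ^ (n / N)) 1 →ₗ[k] secL (E ^ q * A₀) (r * m) :=
    { toFun := fun f => ⟨f.1 * (t ^ (N * m - n) * u ^ m), hinjmem f.1 f.2⟩
      map_add' := fun f g => Subtype.ext (add_mul _ _ _)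
      map_smul' := fun c f => Subtype.ext (smul_mul_assoc _ _ _) }
  have hle : Module.finrank k (secL (E ^ n * A₁ ^ (n / N)) 1) ≤ h0 (E ^ q * A₀) (r * m) := by
    refine LinearMap.finrank_le_finrank_of_injective (f := φ) ?_
    intro f g hfg
    have h3 : f.1 * (t ^ (N * m - n) * u ^ m) = g.1 * (t ^ (N * m - n) * u ^ m) :=
      congrArg Subtype.val hfg
    exact Subtype.ext (mul_right_cancel₀ hc0 h3)
  have hrm : n₁ ≤ r * m := hm1.trans (Nat.le_mul_of_pos_left _ (by omega))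
  have hb := hn₁ (r * m) hrm
  have hlim := hn₂ n hnn2
  have hqR : (0 : ℝ) < q := by exact_mod_cast hq
  have hrR : (0 : ℝ) < r := by
    have : 0 < r := by omega
    exact_mod_cast this
  have hw'0 : 0 ≤ w' := hv0.trans hw1.le
  have hrmR : ((r * m : ℕ) : ℝ) ≤ ((n : ℝ) + N) / q := by
    have h1 : ((n / N : ℕ) : ℝ) ≤ (n : ℝ) / N := Nat.cast_div_le
    have h2 : (N : ℝ) = q * r := by
      rw [hN]
      push_cast
      ring
    have h3 : ((r * m : ℕ) : ℝ) = r * (((n / N : ℕ) : ℝ) + 1) := by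
      rw [hm]
      push_cast
      ring
    rw [h3]
    calc (r : ℝ) * (((n / N : ℕ) : ℝ) + 1) ≤ r * ((n : ℝ) / N + 1) := by gcongr
      _ = ((n : ℝ) + N) / q := by
        rw [h2]
        field_simp
  show (Module.finrank k (secL (E ^ n * A₁ ^ (n / N)) 1) : ℝ) ≤ w / q ^ 3 * n ^ 3
  calc (Module.finrank k (secL (E ^ n * A₁ ^ (n / N)) 1) : ℝ)
      ≤ (h0 (E ^ q * A₀) (r * m) : ℝ) := by exact_mod_cast hle
    _ ≤ w' * ((r * m : ℕ) : ℝ) ^ 3 := hb
    _ ≤ w' * (((n : ℝ) + N) / q) ^ 3 := by gcongr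
    _ = w' * ((n : ℝ) + N) ^ 3 / q ^ 3 := by
      rw [div_pow]
      ring
    _ ≤ w * (n : ℝ) ^ 3 / q ^ 3 := by gcongr
    _ = w / q ^ 3 * n ^ 3 := by ring

end Pool.Agent.H32.TZ
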