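import Pool.Agent.H32.TZ.Itf
import Pool.Agent.H32.TZ.Lev
import Pool.Agent.H32.TZ.Sys
import Pool.Agent.H32.TZ.Surf

/-!
# [H32 TZ FLD] THEOREM Z (MP_e49dc9_ag), G1 and TR: geometric form
-/

set_option autoImplicit false

open scoped TensorProduct

namespace Pool.Agent.H32.TZ

open Pool.Agent.H54.RV Pool.Agent.H83.TU Pool.Agent.H24.TU Pool.Agent.H24.TV Pool.Agent.H39.TQ

variable {k K : Type} [Field k] [Field K] [Algebra k K] {X : Mod k K}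

theorem fld1 [IsAlgClosed k] [CharZero k] (h : Hyp X) : Fld1 X := by
  intro E e he h2 ⟨q, A₀, hq, hA, hv⟩
  have hess := ess h
  have hE : 0 < h0 E 1 := by omega
  obtain ⟨S, hS, hSw⟩ := exists_sys h hq hA hE
  have hq0 : (0 : ℝ) < (q : ℝ) ^ 3 := by
    have : (1 : ℝ) ≤ q := by exact_mod_cast hq
    positivity
  obtain ⟨t, ht⟩ : ∃ t : ℝ, t = (1 + 3 / (e : ℝ)) ^ 3 := ⟨_, rfl⟩
  have ht0 : 0 < t := by
    rw [ht]
    have : (1 : ℝ) ≤ e := by exact_mod_cast he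
    positivity
  rw [← ht] at hv
  obtain ⟨w, hw1, hw2⟩ : ∃ w : ℝ, vol (E ^ q * A₀) < w ∧ w < q ^ 3 * h0 E 1 / t := by
    refine exists_between ?_
    rw [lt_div_iff₀ ht0]
    linarith
  obtain ⟨n₀, hn⟩ := hSw w hw1
  have h1 : (1 + 3 / (e : ℝ)) ^ 3 * (w / q ^ 3) < (Module.finrank k (S.L 1) : ℝ) := by
    rw [← ht, hS, ← mul_div_assoc, div_lt_iff₀ hq0]
    rw [lt_div_iff₀ ht0] at hw2
    have : ((Module.finrank k (secL E 1) : ℕ) : ℝ) = h0 E 1 := rfl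
    rw [this]
    linarith
  have h3 := lev1 h.tr S he (w / q ^ 3) (Filter.eventually_atTop.2 ⟨n₀, hn⟩) h1 (by rw [hS]; exact h2)
  rw [hS] at h3
  exact h3

end Pool.Agent.H32.TZ
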