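import Pool.Agent.H32.TZ.Itf
import Pool.Agent.H41.ZC.Def

/-!
# [H32 TZ Itf2] THEOREM Z (MP_e49dc9_ag), the engine: the statements of helper41's chapters

`IsPF F` (H41/ZC/Def): `F` comes from a transitive prime.
-/

set_option autoImplicit false

open scoped TensorProduct

namespace Pool.Agent.H32.TZ

open Pool.Agent.H54.RV Pool.Agent.H83.TU Pool.Agent.H24.TU Pool.Agent.H24.TV Pool.Agent.H39.TQ Pool.Agent.H41.ZC

variable {k K : Type} [Field k] [Field K] [Algebra k K]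

variable (k K) in
/-- CHAIN: two different fields give a surface -/
def ChainB : Prop :=
  ∀ (L : Submodule k K) (F F' : IntermediateField k K) (u u' : ℕ), FiniteDimensional k L →
    Algebra.trdeg F K = 1 → Algebra.trdeg F' K = 1 → Clo F → Clo F' → F ≠ F' → GrwL F L u → GrwL F' L u' →
      (u + u' + 3).choose 3 < Module.finrank k L → TZ.Srf L (u + u')

/-- G1 and TR: many sections give a surface or a field -/
def FldP (X : Mod k K) : Prop :=
  ∀ (E : Cart X) (e : ℕ), 1 ≤ e → (2 * e + 2).choose 3 < h0 E 1 → SmV ((1 + 3 / (e : ℝ)) ^ 3) E →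
    TZ.Srf (secL E 1) (2 * e) ∨ ∃ F : IntermediateField k K, Algebra.trdeg F K = 1 ∧ IsPF F ∧ Clo F ∧
      GrwL F (secL E 1) ((e + 2).choose 3)

variable {X : Mod k K}

/-- END (i), (ii) -/
def EndP (hX : IsVar X) (hg : ∃ g, Gen X g) : Prop :=
  ∀ (D : Cart X) (F : IntermediateField k K) (u κ₀ : ℕ), 0 < h0 D 1 → Algebra.trdeg F K = 1 → IsPF F → Clo F →
    GrwL F (secL D 1) u → (κ₀ + u + 3).choose 3 < h0 D 1 →
      TZ.Srf (secL D 1) (κ₀ + u) ∨ ∀ A : Cart X, Ample A → ∀ a b : ℕ, 1 ≤ a → 1 ≤ b →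
        (κ₀ : ℝ) ^ 2 / 2 * a ^ 2 * b * RF hX hg F A ≤ vol (D ^ a * A ^ b)

end Pool.Agent.H32.TZ
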