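import Pool.Agent.H24.TU.LemS
import Pool.Agent.H24.TU.TrD
import Pool.Agent.H24.TU.OrdB

/-!
# [H32 TZ TRV] THEOREM Z (MP_e49dc9_ag), SURF: a transversal coordinate at a prime of transcendence degree 2

`R = X ⊗[k] K` (coefficients `X` on the left), `C : Coord k K` (coordinates `C.c`, dual derivations `C.d`).
`exists_transv`: `Q` a prime of `R` with `trdeg_X (R / Q) ≥ 2`.  There is `i : Fin 3` such that for all `g ∈ Q`: if
`dK X (C.d i) g ∈ Q` then `dK X δ g ∈ Q` for all derivations `δ` of `K`.

PROOF.  `κ := FractionRing (R ⧸ Q)`, an `X`-algebra; `π : R →ₐ[X] κ` (`IsScalarTower.toAlgHom` after `Ideal.Quotient.mkₐ`),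
`π g = 0 ↔ g ∈ Q` (compare `lems_pt` in H24/TU/LemS); `z f := π (1 ⊗ f)`, a `k`-embedding `K → κ`.
(1) `trdeg X κ ≥ 2` (`trdeg_le_of_injective`, as in `trdeg_quot_fin` of H24/TU/TrD).
(2) `κ` is algebraic over `Algebra.adjoin X (Set.range (z ∘ C.c))`: every `f ∈ K` is algebraic over `k(C.c)` (`C.basis`), so `z f` is
algebraic over the field generated over `X` by the `z (C.c l)`; the elements of `R ⧸ Q` are sums of `x • z f`, and `κ` is its fraction
field.  (Convenient: the set of the elements of `κ` which are algebraic over `IntermediateField.adjoin X (Set.range (z ∘ C.c))` is an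
intermediate field `algebraicClosure ..` which contains `X` and all `z f`.)
(3) `exists_isTranscendenceBasis_subset` gives a transcendence basis `t ⊆ Set.range (z ∘ C.c)` of `κ / X`; it has at least two elements by
(1); `z ∘ C.c` is injective (`C.c` is injective: `C.basis.1.injective`, `z` is injective).  So there is `i : Fin 3` with
`z (C.c j) ∈ t` for all `j ≠ i`.
(4) For `j ≠ i` take `Ξ : Derivation X κ κ` with `Ξ v = if v = z (C.c j) then 1 else 0` for `v ∈ t` (`exists_derivation` of H24/TU/DerEx, with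
`k := X`, `K := κ`; `CharZero X` because `CharZero k`).  For all `g ∈ R`: `Ξ (π g) = ∑ l, π (dK X (C.d l) g) * Ξ (z (C.c l))`.  (Tensor induction;
for `x ⊗ f`: `Ξ (π (x ⊗ f)) = x • Ξ (z f)` and `Ξ ∘ z = ∑ l, Ξ (z (C.c l)) * z ∘ C.d l` as derivations of `K` with values in `κ` (a `K`-module by
`z`): both agree on the `C.c l` by `C.dual`, `derivation_eq_zero`; compare `lems_core`.)
(5) `g ∈ Q` and `dK X (C.d i) g ∈ Q`: for `j ≠ i`: `0 = Ξ (π g) = π (dK X (C.d j) g) * 1 + 0`: the term `l = i` vanishes, and the third index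
`l ∉ {i, j}` has `z (C.c l) ∈ t`, different from `z (C.c j)`, so `Ξ (z (C.c l)) = 0`.  So `dK X (C.d l) g ∈ Q` for all `l`.
(6) `dK X δ g = ∑ l, (1 ⊗ δ (C.c l)) * dK X (C.d l) g` (tensor induction, `δ = ∑ l, δ (C.c l) • C.d l` by `derivation_eq_zero`), so it is in `Q`.
-/

set_option autoImplicit false

open scoped TensorProduct IntermediateField.algebraAdjoinAdjoin

namespace Pool.Agent.H32.TZ

open Pool.Agent.H24.TU

variable {k X K : Type} [Field k] [CharZero k] [Field X] [Field K] [Algebra k X] [Algebra k K]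

/-- the point of a prime of transcendence degree at least two -/
private theorem trv_pt {Q : Ideal (X ⊗[k] K)} (hQ : Q.IsPrime)
    (htr : 2 ≤ Algebra.trdeg X ((X ⊗[k] K) ⧸ Q)) :
    ∃ (κ : Type) (_ : Field κ) (_ : Algebra X κ) (_ : Algebra k κ) (_ : IsScalarTower k X κ)
      (π : (X ⊗[k] K) →ₐ[X] κ), (∀ g, π g = 0 ↔ g ∈ Q) ∧ 2 ≤ Algebra.trdeg X κ ∧
      ∀ u : κ, ∃ a b, u = π a / π b := by
  haveI := hQ
  refine ⟨FractionRing ((X ⊗[k] K) ⧸ Q), inferInstance, inferInstance, inferInstance,
    inferInstance,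
    (IsScalarTower.toAlgHom X ((X ⊗[k] K) ⧸ Q) (FractionRing ((X ⊗[k] K) ⧸ Q))).comp
      (Ideal.Quotient.mkₐ X Q), fun g => ?_, ?_, fun u => ?_⟩
  · change algebraMap ((X ⊗[k] K) ⧸ Q) (FractionRing ((X ⊗[k] K) ⧸ Q))
      (Ideal.Quotient.mk Q g) = 0 ↔ g ∈ Q
    rw [← Ideal.Quotient.eq_zero_iff_mem]
    exact IsFractionRing.to_map_eq_zero_iff
  · exact htr.trans (trdeg_le_of_injective
      (IsScalarTower.toAlgHom X ((X ⊗[k] K) ⧸ Q) (FractionRing ((X ⊗[k] K) ⧸ Q)))
      (IsFractionRing.injective ((X ⊗[k] K) ⧸ Q) (FractionRing ((X ⊗[k] K) ⧸ Q))))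
  · obtain ⟨x, y, -, hxy⟩ := IsFractionRing.div_surjective (A := (X ⊗[k] K) ⧸ Q) u
    obtain ⟨a, rfl⟩ := Ideal.Quotient.mk_surjective x
    obtain ⟨b, rfl⟩ := Ideal.Quotient.mk_surjective y
    exact ⟨a, b, hxy.symm⟩

/-- the point is algebraic over the coordinates -/
private theorem trv_alg (C : Coord k K) {κ : Type} [Field κ] [Algebra X κ] [Algebra k κ]
    [IsScalarTower k X κ] (π : (X ⊗[k] K) →ₐ[X] κ) (hfr : ∀ u : κ, ∃ a b, u = π a / π b)
    (z : K →ₐ[k] κ) (hz : ∀ f, z f = π ((1 : X) ⊗ₜ[k] f)) :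
    Algebra.IsAlgebraic (Algebra.adjoin X (Set.range fun l => z (C.c l))) κ := by
  set s : Set κ := Set.range fun l => z (C.c l) with hs
  have hzL : ∀ x ∈ IntermediateField.adjoin k (Set.range C.c),
      z x ∈ IntermediateField.adjoin X s := by
    have h1 : IntermediateField.adjoin k (Set.range C.c) ≤
        ((IntermediateField.adjoin X s).restrictScalars k).comap z := by
      rw [IntermediateField.adjoin_le_iff]
      rintro _ ⟨l, rfl⟩
      exact IntermediateField.subset_adjoin X s ⟨l, rfl⟩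
    exact fun x hx => h1 hx
  have hzA : ∀ f : K, z f ∈ algebraicClosure (IntermediateField.adjoin X s) κ := by
    intro f
    rw [mem_algebraicClosure_iff]
    haveI : Algebra.IsAlgebraic (IntermediateField.adjoin k (Set.range C.c)) K :=
      C.basis.isAlgebraic_field
    have h2 : IsAlgebraic (IntermediateField.adjoin k (Set.range C.c)) f :=
      Algebra.IsAlgebraic.isAlgebraic f
    let φ : IntermediateField.adjoin k (Set.range C.c) →+* IntermediateField.adjoin X s :=
      { toFun := fun x => ⟨z x, hzL x x.2⟩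
        map_one' := Subtype.ext (map_one z)
        map_mul' := fun a b => Subtype.ext (map_mul z (a : K) (b : K))
        map_zero' := Subtype.ext (map_zero z)
        map_add' := fun a b => Subtype.ext (map_add z (a : K) (b : K)) }
    exact IsAlgebraic.ringHom_of_comp_eq φ z.toRingHom h2 φ.injective (RingHom.ext fun x => rfl)
  have hπA : ∀ g, π g ∈ algebraicClosure (IntermediateField.adjoin X s) κ := by
    intro g
    induction g using TensorProduct.induction_on with
    | zero => rw [map_zero]; exact zero_mem _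
    | add a b ha hb => rw [map_add]; exact add_mem ha hb
    | tmul x f =>
      have h3 : x ⊗ₜ[k] f = x • ((1 : X) ⊗ₜ[k] f) := by
        rw [TensorProduct.smul_tmul', smul_eq_mul, mul_one]
      rw [h3, map_smul, ← hz, Algebra.smul_def]
      refine mul_mem ?_ (hzA f)
      exact (algebraicClosure (IntermediateField.adjoin X s) κ).algebraMap_mem
        (algebraMap X (IntermediateField.adjoin X s) x)
  have halg : Algebra.IsAlgebraic (IntermediateField.adjoin X s) κ := by
    refine ⟨fun u => ?_⟩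
    obtain ⟨a, b, rfl⟩ := hfr u
    rw [← mem_algebraicClosure_iff]
    exact div_mem (hπA a) (hπA b)
  have h4 : Algebra.IsAlgebraic (Algebra.adjoin X s) (IntermediateField.adjoin X s) :=
    IsLocalization.isAlgebraic _ (nonZeroDivisors (Algebra.adjoin X s))
  exact Algebra.IsAlgebraic.trans (Algebra.adjoin X s) (IntermediateField.adjoin X s) κ

/-- the derivations of the coordinates generate -/
private theorem trv_ext (C : Coord k K) {M : Type} [AddCommGroup M] [Module k M] [Module K M]
    [IsScalarTower k K M] (D : Derivation k K M) (f : K) :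
    D f = ∑ l, C.d l f • D (C.c l) := by
  have h0 : ∀ x, (∑ l, (LinearMap.toSpanSingleton K M (D (C.c l))).compDer (C.d l) :
      Derivation k K M) x = ∑ l, C.d l x • D (C.c l) := by
    intro x
    have h := congrFun (map_sum (Derivation.coeFnAddMonoidHom (R := k) (A := K) (M := M))
      (fun l => (LinearMap.toSpanSingleton K M (D (C.c l))).compDer (C.d l)) Finset.univ) x
    rw [Finset.sum_apply] at h
    exact h
  have h1 : D - ∑ l, (LinearMap.toSpanSingleton K M (D (C.c l))).compDer (C.d l) = 0 := by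
    apply derivation_eq_zero C.basis
    intro i
    rw [Derivation.sub_apply, h0, sub_eq_zero]
    simp only [C.dual, ite_smul,
      one_smul, zero_smul, Finset.sum_ite_eq', Finset.mem_univ, if_true]
  have h2 := congrArg (fun E : Derivation k K M => E f) h1
  simp only [Derivation.sub_apply, h0, Derivation.zero_apply] at h2
  exact sub_eq_zero.1 h2

/-- the chain rule at the point -/
private theorem trv_chain (C : Coord k K) {κ : Type} [Field κ] [Algebra X κ] [Algebra k κ]
    [IsScalarTower k X κ] (π : (X ⊗[k] K) →ₐ[X] κ)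
    (z : K →ₐ[k] κ) (hz : ∀ f, z f = π ((1 : X) ⊗ₜ[k] f)) (Ξ : Derivation X κ κ)
    (g : X ⊗[k] K) :
    Ξ (π g) = ∑ l, π (dK X (C.d l) g) * Ξ (z (C.c l)) := by
  letI : Algebra K κ := z.toRingHom.toAlgebra
  have hsm : ∀ (f : K) (y : κ), f • y = z f * y := fun _ _ => rfl
  haveI : IsScalarTower k K κ := ⟨fun r f y => by
    rw [hsm, hsm, map_smul, smul_mul_assoc]⟩
  let Ξz : Derivation k K κ :=
    { toLinearMap := (Ξ.toLinearMap.restrictScalars k) ∘ₗ z.toLinearMap
      map_one_eq_zero' := by
        change Ξ (z 1) = 0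
        rw [map_one, Derivation.map_one_eq_zero]
      leibniz' := fun f g => by
        change Ξ (z (f * g)) = z f * Ξ (z g) + z g * Ξ (z f)
        rw [map_mul, Derivation.leibniz, smul_eq_mul, smul_eq_mul] }
  have h1 : ∀ f, Ξ (z f) = ∑ l, z (C.d l f) * Ξ (z (C.c l)) := fun f => trv_ext C Ξz f
  induction g using TensorProduct.induction_on with
  | zero => simp
  | add a b ha hb =>
    simp only [map_add, add_mul, Finset.sum_add_distrib, ha, hb]
  | tmul x f =>
    have e : ∀ (x' : X) (f' : K), π (x' ⊗ₜ[k] f') = x' • z f' := by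
      intro x' f'
      rw [hz, ← map_smul, TensorProduct.smul_tmul', smul_eq_mul, mul_one]
    rw [e, Derivation.map_smul, h1, Finset.smul_sum]
    refine Finset.sum_congr rfl fun l _ => ?_
    rw [dK_tmul, e, smul_mul_assoc]

/-- every function derivation is a combination of the coordinate derivations -/
private theorem trv_sum (C : Coord k K) (δ : Derivation k K K) (g : X ⊗[k] K) :
    dK X δ g = ∑ l, ((1 : X) ⊗ₜ[k] (δ (C.c l))) * dK X (C.d l) g := by
  induction g using TensorProduct.induction_on with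
  | zero => simp
  | add a b ha hb =>
    simp only [map_add, mul_add, Finset.sum_add_distrib, ha, hb]
  | tmul x f =>
    rw [dK_tmul, trv_ext C δ f, TensorProduct.tmul_sum]
    refine Finset.sum_congr rfl fun l _ => ?_
    rw [dK_tmul, Algebra.TensorProduct.tmul_mul_tmul, one_mul, smul_eq_mul, mul_comm]

theorem exists_transv (C : Coord k K) {Q : Ideal (X ⊗[k] K)} (hQ : Q.IsPrime)
    (htr : 2 ≤ Algebra.trdeg X ((X ⊗[k] K) ⧸ Q)) :
    ∃ i : Fin 3, ∀ g ∈ Q, dK X (C.d i) g ∈ Q → ∀ δ : Derivation k K K, dK X δ g ∈ Q := by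
  classical
  obtain ⟨κ, _, _, _, _, π, hπ, htr2, hfr⟩ := trv_pt hQ htr
  haveI : CharZero X := charZero_of_injective_algebraMap (algebraMap k X).injective
  obtain ⟨z, hz⟩ : ∃ z : K →ₐ[k] κ, ∀ f, z f = π ((1 : X) ⊗ₜ[k] f) :=
    ⟨(π.restrictScalars k).comp (Algebra.TensorProduct.includeRight : K →ₐ[k] X ⊗[k] K),
      fun f => rfl⟩
  haveI := trv_alg C π hfr z hz
  obtain ⟨t, ht, htb⟩ := exists_isTranscendenceBasis_subset (R := X)
    (Set.range fun l => z (C.c l))
  have hcard : 2 ≤ Cardinal.mk t := by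
    rw [htb.cardinalMk_eq_trdeg]
    exact htr2
  have hinj : Function.Injective fun l => z (C.c l) := fun a b hab =>
    C.basis.1.injective (z.toRingHom.injective hab)
  -- the index
  obtain ⟨i, hi⟩ : ∃ i : Fin 3, ∀ j, j ≠ i → z (C.c j) ∈ t := by
    by_contra hno
    push Not at hno
    obtain ⟨j0, -, h0⟩ := hno 0
    obtain ⟨j1, h01, h1⟩ := hno j0
    have hdec : ∀ a b c : Fin 3, b ≠ a → c ≠ a → c ≠ b → c = 3 - a - b := by decide
    have hsub : t ⊆ {z (C.c (3 - j0 - j1))} := by
      intro y hy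
      obtain ⟨l, rfl⟩ := ht hy
      have hl0 : l ≠ j0 := by rintro rfl; exact h0 hy
      have hl1 : l ≠ j1 := by rintro rfl; exact h1 hy
      have hl : l = 3 - j0 - j1 := hdec j0 j1 l h01 hl0 hl1
      rw [hl]
      exact Set.mem_singleton _
    have h5 := (Cardinal.mk_le_mk_of_subset hsub).trans (Cardinal.mk_singleton _).le
    have h6 := hcard.trans h5
    exact absurd h6 (by norm_num)
  refine ⟨i, fun g hg hgi => ?_⟩
  have hall : ∀ j, dK X (C.d j) g ∈ Q := by
    intro j
    by_cases hji : j = i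
    · rw [hji]; exact hgi
    obtain ⟨Ξ, hΞ⟩ := exists_derivation (M := κ) htb
      (fun v : t => if (v : κ) = z (C.c j) then (1 : κ) else 0)
    have h1 := trv_chain C π z hz Ξ g
    rw [(hπ g).2 hg, map_zero, Finset.sum_eq_single j] at h1
    · have h2 : Ξ (z (C.c j)) = 1 := by
        have h3 := hΞ ⟨z (C.c j), hi j hji⟩
        rw [if_pos rfl] at h3
        exact h3
      rw [h2, mul_one] at h1
      exact (hπ _).1 h1.symm
    · intro l _ hlj
      by_cases hli : l = i
      · rw [hli, (hπ _).2 hgi, zero_mul]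
      · have h3 := hΞ ⟨z (C.c l), hi l hli⟩
        rw [if_neg (fun h => hlj (hinj h))] at h3
        have h4 : Ξ (z (C.c l)) = 0 := h3
        rw [h4, mul_zero]
    · intro h
      exact absurd (Finset.mem_univ j) h
  intro δ
  rw [trv_sum C δ g]
  exact Q.sum_mem fun l _ => Q.mul_mem_left _ (hall l)

end Pool.Agent.H32.TZ
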